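import Mathlib

/-!
Central extensions of special linear groups: canonical lifts of transvections.
-/

open Module LinearMap
open scoped commutatorElement

namespace Pool.Agent.H21.SLc

section Central

variable {Y M : Type} [Group Y] [Monoid M] {p : Y →* M}

theorem p_inv_mul (p : Y →* M) (y : Y) : p y⁻¹ * p y = 1 := by
  rw [← map_mul, inv_mul_cancel, map_one]

theorem p_mul_inv (p : Y →* M) (y : Y) : p y * p y⁻¹ = 1 := by
  rw [← map_mul, mul_inv_cancel, map_one]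

theorem eq_mul (hc : ∀ z, p z = 1 → ∀ x, Commute z x) {x y : Y} (hxy : p x = p y) :
    ∃ z, p z = 1 ∧ (∀ g, Commute z g) ∧ x = y * z := by
  have h1 : p (y⁻¹ * x) = 1 := by rw [map_mul, hxy, p_inv_mul]
  exact ⟨y⁻¹ * x, h1, hc _ h1, by group⟩

theorem comm_congr (hc : ∀ z, p z = 1 → ∀ x, Commute z x) {x x' y y' : Y} (hx : p x = p x')
    (hy : p y = p y') : ⁅x, y⁆ = ⁅x', y'⁆ := by
  obtain ⟨z, -, hz, rfl⟩ := eq_mul hc hx
  obtain ⟨w, -, hw, rfl⟩ := eq_mul hc hy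
  rw [commutatorElement_def, commutatorElement_def]
  calc x' * z * (y' * w) * (x' * z)⁻¹ * (y' * w)⁻¹
      = x' * (z * y') * w * z⁻¹ * x'⁻¹ * w⁻¹ * y'⁻¹ := by group
    _ = x' * (y' * z) * w * z⁻¹ * x'⁻¹ * w⁻¹ * y'⁻¹ := by rw [(hz y').eq]
    _ = x' * y' * (z * w) * z⁻¹ * x'⁻¹ * w⁻¹ * y'⁻¹ := by group
    _ = x' * y' * (w * z) * z⁻¹ * x'⁻¹ * w⁻¹ * y'⁻¹ := by rw [(hz w).eq]
    _ = x' * y' * (w * x'⁻¹) * w⁻¹ * y'⁻¹ := by group
    _ = x' * y' * (x'⁻¹ * w) * w⁻¹ * y'⁻¹ := by rw [(hw x'⁻¹).eq]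
    _ = _ := by group

theorem comm_central (hc : ∀ z, p z = 1 → ∀ x, Commute z x) {x y : Y}
    (h : Commute (p x) (p y)) (g : Y) : Commute ⁅x, y⁆ g := by
  apply hc
  rw [commutatorElement_def, map_mul, map_mul, map_mul, h.eq]
  calc p y * p x * p x⁻¹ * p y⁻¹ = p y * (p x * p x⁻¹) * p y⁻¹ := by simp only [mul_assoc]
    _ = 1 := by rw [p_mul_inv, mul_one, p_mul_inv]

theorem comm_mul_right (x y z : Y) : ⁅x, y * z⁆ = ⁅x, y⁆ * (y * ⁅x, z⁆ * y⁻¹) := by
  simp only [commutatorElement_def]; group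

theorem comm_mul_left (x y z : Y) : ⁅x * y, z⁆ = (x * ⁅y, z⁆ * x⁻¹) * ⁅x, z⁆ := by
  simp only [commutatorElement_def]; group

theorem conj_of_commute {x y : Y} (h : Commute x y) : x * y * x⁻¹ = y := by
  rw [h.eq, mul_inv_cancel_right]

theorem conj_comm (g x y : Y) : g * ⁅x, y⁆ * g⁻¹ = ⁅g * x * g⁻¹, g * y * g⁻¹⁆ := by
  simp only [commutatorElement_def]; group

theorem p_comm {x y : Y} {c : M} (h : p x * p y = c * (p y * p x)) : p ⁅x, y⁆ = c := by
  rw [commutatorElement_def, map_mul, map_mul, map_mul, h]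
  calc c * (p y * p x) * p x⁻¹ * p y⁻¹ = c * (p y * (p x * p x⁻¹) * p y⁻¹) := by
        simp only [mul_assoc]
    _ = c := by rw [p_mul_inv, mul_one, p_mul_inv, mul_one]

/-- An element commutes with commutators of elements with which its image commutes. -/
theorem commute_commutator (hc : ∀ z, p z = 1 → ∀ x, Commute z x) {T y a b : Y}
    (hy : p y = p ⁅a, b⁆) (ha : Commute (p T) (p a)) (hb : Commute (p T) (p b)) :
    Commute T y := by
  obtain ⟨z, -, hz, rfl⟩ := eq_mul hc hy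
  refine Commute.mul_right ?_ (hz T).symm
  have key : ∀ c, Commute (p T) (p c) → p (T * c * T⁻¹) = p c := by
    intro c hc'
    rw [map_mul, map_mul, hc'.eq, mul_assoc, p_mul_inv, mul_one]
  have h3 : T * ⁅a, b⁆ * T⁻¹ = ⁅a, b⁆ := by
    rw [conj_comm]
    exact comm_congr hc (key a ha) (key b hb)
  exact mul_inv_eq_iff_eq_mul.1 h3

end Central

variable {F V Y : Type} [Field F] [AddCommGroup V] [Module F V] [Group Y]

/-- transvections -/
abbrev tv (φ : Dual F V) (w : V) : Module.End F V := LinearMap.transvection φ w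

theorem tv_apply (φ : Dual F V) (w x : V) : tv φ w x = x + φ x • w := rfl

theorem tv_commute {φ α : Dual F V} {w a : V} (h1 : φ a = 0) (h2 : α w = 0) :
    Commute (tv φ w) (tv α a) := by
  ext x
  simp only [Module.End.mul_apply, tv_apply, map_add, map_smul, h1, h2, smul_zero, zero_smul,
    add_zero]
  abel

theorem tv_add_right {φ : Dual F V} {v w : V} (h : φ w = 0) :
    tv φ v * tv φ w = tv φ (v + w) := by
  ext x
  simp only [Module.End.mul_apply, tv_apply, map_add, map_smul, h, smul_zero, zero_smul, add_zero,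
    smul_add]
  abel

theorem tv_add_left {φ ψ : Dual F V} {w : V} (h : φ w = 0) :
    tv φ w * tv ψ w = tv (φ + ψ) w := by
  ext x
  simp only [Module.End.mul_apply, tv_apply, map_add, map_smul, h, smul_zero, zero_smul, add_zero,
    LinearMap.add_apply, add_smul]
  abel

theorem tv_smul (φ : Dual F V) (w : V) (c : F) : tv (c • φ) w = tv φ (c • w) := by
  ext x
  simp only [tv_apply, LinearMap.smul_apply, smul_smul, smul_eq_mul, mul_comm]

theorem tv_rel {φ η : Dual F V} {w z : V} (h1 : η z = 1) (h2 : η w = 0) (h3 : φ z = 0)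
    (h4 : φ w = 0) : tv η w * tv φ z = tv φ w * (tv φ z * tv η w) := by
  ext x
  simp only [Module.End.mul_apply, tv_apply, map_add, map_smul, h1, h2, h3, h4, smul_zero,
    zero_smul, add_zero, one_smul, smul_add]
  abel

/-- central extensions of the special linear group of `V` -/
structure Cov (p : Y →* Module.End F V) : Prop where
  ker : ∀ z, p z = 1 → ∀ x, Commute z x
  lift : ∀ g : Module.End F V, LinearMap.det g = 1 → ∃ y, p y = g
  dim : 5 ≤ finrank F V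

variable {p : Y →* Module.End F V}

theorem Cov.fin (h : Cov p) : FiniteDimensional F V :=
  Module.finite_of_finrank_pos (by have := h.dim; omega)

theorem Cov.lift_tv (h : Cov p) {φ : Dual F V} {w : V} (hφ : φ w = 0) : ∃ y, p y = tv φ w := by
  have := h.fin
  exact h.lift _ (by rw [LinearMap.transvection.det, hφ, add_zero])

section dims

theorem exists_dual (S : Submodule F V) {b : V} (hb : b ∉ S) :
    ∃ β : Dual F V, β b = 1 ∧ ∀ x ∈ S, β x = 0 := by
  obtain ⟨f, hf, hS⟩ := Submodule.exists_le_ker_of_notMem hb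
  refine ⟨(f b)⁻¹ • f, ?_, fun x hx => ?_⟩
  · rw [LinearMap.smul_apply, smul_eq_mul, inv_mul_cancel₀ hf]
  · rw [LinearMap.smul_apply, LinearMap.mem_ker.1 (hS hx), smul_zero]

variable [FiniteDimensional F V]

theorem fr_add (S : Submodule F V) (a : V) :
    finrank F (S ⊔ F ∙ a : Submodule F V) ≤ finrank F S + 1 := by
  have h1 := Submodule.finrank_add_le_finrank_add_finrank S (F ∙ a)
  have h2 : finrank F (F ∙ a) ≤ 1 := by
    have := finrank_span_le_card (R := F) ({a} : Set V)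
    simpa using this
  omega

theorem fr_one (a : V) : finrank F (F ∙ a : Submodule F V) ≤ 1 := by
  have := finrank_span_le_card (R := F) ({a} : Set V)
  simpa using this

theorem exists_vec (φ α : Dual F V) (S : Submodule F V) (hS : finrank F S + 2 < finrank F V) :
    ∃ b, φ b = 0 ∧ α b = 0 ∧ b ∉ S := by
  by_contra hcon
  push Not at hcon
  have h1 := LinearMap.finrank_range_add_finrank_ker (φ.prod α)
  have h2 : finrank F (LinearMap.range (φ.prod α)) ≤ 2 := by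
    have := Submodule.finrank_le (LinearMap.range (φ.prod α))
    rw [finrank_prod, finrank_self] at this
    omega
  have h3 : LinearMap.ker (φ.prod α) ≤ S := by
    intro b hb
    rw [LinearMap.mem_ker] at hb
    have hb' : (φ b, α b) = (0, 0) := hb
    rw [Prod.mk.injEq] at hb'
    exact hcon b hb'.1 hb'.2
  have h4 := Submodule.finrank_mono h3
  omega

theorem exists_vec1 (φ : Dual F V) (S : Submodule F V) (hS : finrank F S + 1 < finrank F V) :
    ∃ b, φ b = 0 ∧ b ∉ S := by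
  by_contra hcon
  push Not at hcon
  have h1 := LinearMap.finrank_range_add_finrank_ker φ
  have h2 : finrank F (LinearMap.range φ) ≤ 1 := by
    have := Submodule.finrank_le (LinearMap.range φ)
    rwa [finrank_self] at this
  have h3 : LinearMap.ker φ ≤ S := fun b hb => hcon b (LinearMap.mem_ker.1 hb)
  have h4 := Submodule.finrank_mono h3
  omega

end dims

theorem mem_l {a b : V} : a ∈ F ∙ a ⊔ F ∙ b :=
  Submodule.mem_sup_left (Submodule.mem_span_singleton_self a)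

theorem mem_r {a b : V} : b ∈ F ∙ a ⊔ F ∙ b :=
  Submodule.mem_sup_right (Submodule.mem_span_singleton_self b)

/-- Lifts of commuting transvections commute. -/
theorem Cov.comm_tv (h : Cov p) {φ α : Dual F V} {w a : V} (h1 : φ w = 0) (h2 : α a = 0)
    (h3 : φ a = 0) (h4 : α w = 0) {X A : Y} (hX : p X = tv φ w) (hA : p A = tv α a) :
    Commute X A := by
  have := h.fin
  have hdim := h.dim
  obtain ⟨b, hb1, hb2, hb3⟩ := exists_vec φ α (F ∙ w ⊔ F ∙ a) (by
    have e1 := fr_add (F ∙ w) a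
    have e2 := fr_one (F := F) w
    omega)
  obtain ⟨β, hβ1, hβ2⟩ := exists_dual _ hb3
  have hβw : β w = 0 := hβ2 w (Submodule.mem_sup_left (Submodule.mem_span_singleton_self w))
  have hβa : β a = 0 := hβ2 a (Submodule.mem_sup_right (Submodule.mem_span_singleton_self a))
  obtain ⟨P, hP⟩ := h.lift_tv hβa
  obtain ⟨Q, hQ⟩ := h.lift_tv hb2
  refine commute_commutator h.ker (a := P) (b := Q) ?_ ?_ ?_
  · rw [hA]
    exact (p_comm (by rw [hP, hQ]; exact tv_rel hβ1 hβa hb2 h2)).symm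
  · rw [hX, hP]; exact tv_commute h3 hβw
  · rw [hX, hQ]; exact tv_commute hb1 h4

/-- `T` is a canonical lift of the transvection `x ↦ x + φ x • w` -/
def Good (p : Y →* Module.End F V) (φ : Dual F V) (w : V) (T : Y) : Prop :=
  ∃ (η : Dual F V) (z : V) (X A : Y), η z = 1 ∧ η w = 0 ∧ φ z = 0 ∧ p X = tv η w ∧
    p A = tv φ z ∧ T = ⁅X, A⁆

theorem Good.map {φ : Dual F V} {w : V} {T : Y} (hT : Good p φ w T) (hφ : φ w = 0) :
    p T = tv φ w := by
  obtain ⟨η, z, X, A, h1, h2, h3, h4, h5, rfl⟩ := hT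
  exact p_comm (by rw [h4, h5]; exact tv_rel h1 h2 h3 hφ)

theorem Cov.good_exists (h : Cov p) {φ : Dual F V} {w : V} :
    ∃ T, Good p φ w T := by
  have := h.fin
  have hdim := h.dim
  obtain ⟨z, hz, -, hzw⟩ := exists_vec φ φ (F ∙ w) (by
    have e2 := fr_one (F := F) w
    omega)
  obtain ⟨η, h1, h2⟩ := exists_dual _ hzw
  have hηw : η w = 0 := h2 w (Submodule.mem_span_singleton_self w)
  obtain ⟨X, hX⟩ := h.lift_tv hηw
  obtain ⟨A, hA⟩ := h.lift_tv hz
  exact ⟨_, η, z, X, A, h1, hηw, hz, hX, hA, rfl⟩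

theorem Cov.good_a (h : Cov p) {φ η : Dual F V} {w z z' : V} (hφ : φ w = 0) (hηw : η w = 0)
    (h1 : η z = 1) (h2 : η z' = 1) (h3 : φ z = 0) (h4 : φ z' = 0) {X A A' : Y}
    (hX : p X = tv η w) (hA : p A = tv φ z) (hA' : p A' = tv φ z') : ⁅X, A⁆ = ⁅X, A'⁆ := by
  have h5 : φ (z' - z) = 0 := by rw [map_sub, h3, h4, sub_zero]
  obtain ⟨D, hD⟩ := h.lift_tv h5
  have h6 : p A' = p (A * D) := by
    rw [map_mul, hA, hD, hA', tv_add_right h5, add_sub_cancel]
  have h7 : Commute X D := h.comm_tv hηw h5 (by rw [map_sub, h1, h2, sub_self]) hφ hX hD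
  rw [comm_congr h.ker rfl h6, comm_mul_right, commutatorElement_eq_one_iff_commute.2 h7, mul_one,
    mul_inv_cancel, mul_one]

theorem Cov.good_b (h : Cov p) {φ η η' : Dual F V} {w z : V} (hφ : φ w = 0) (hηw : η w = 0)
    (hηw' : η' w = 0) (h1 : η z = 1) (h2 : η' z = 1) (h3 : φ z = 0) {X X' A : Y}
    (hX : p X = tv η w) (hX' : p X' = tv η' w) (hA : p A = tv φ z) : ⁅X, A⁆ = ⁅X', A⁆ := by
  have h5 : (η' - η) w = 0 := by rw [LinearMap.sub_apply, hηw, hηw', sub_zero]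
  obtain ⟨D, hD⟩ := h.lift_tv h5
  have h6 : p X' = p (X * D) := by
    rw [map_mul, hX, hD, hX', tv_add_left hηw, add_sub_cancel]
  have h7 : Commute D A := h.comm_tv h5 h3 (by rw [LinearMap.sub_apply, h1, h2, sub_self]) hφ hD hA
  rw [comm_congr h.ker h6 rfl, comm_mul_left, commutatorElement_eq_one_iff_commute.2 h7, mul_one,
    mul_inv_cancel, one_mul]

theorem Cov.good_link (h : Cov p) {φ η η' : Dual F V} {w z z' : V} (hφ : φ w = 0)
    (hηw : η w = 0) (hηw' : η' w = 0) (h1 : η z = 1) (h2 : η' z' = 1) (h3 : φ z = 0)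
    (h4 : φ z' = 0) (hz : z' ∉ F ∙ w ⊔ F ∙ z) {X X' A A' : Y} (hX : p X = tv η w)
    (hX' : p X' = tv η' w) (hA : p A = tv φ z) (hA' : p A' = tv φ z') : ⁅X, A⁆ = ⁅X', A'⁆ := by
  obtain ⟨ζ, hζ1, hζ2⟩ := exists_dual _ hz
  have hζw : ζ w = 0 := hζ2 w (Submodule.mem_sup_left (Submodule.mem_span_singleton_self w))
  have hζz : ζ z = 0 := hζ2 z (Submodule.mem_sup_right (Submodule.mem_span_singleton_self z))
  set ξ : Dual F V := η + (1 - η z') • ζ with hξ
  have hξw : ξ w = 0 := by simp [hξ, hηw, hζw]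
  have hξz : ξ z = 1 := by simp [hξ, h1, hζz]
  have hξz' : ξ z' = 1 := by simp [hξ, hζ1]
  obtain ⟨P, hP⟩ := h.lift_tv hξw
  rw [h.good_b hφ hηw hξw h1 hξz h3 hX hP hA, h.good_a hφ hξw hξz hξz' h3 h4 hP hA hA',
    h.good_b hφ hξw hηw' hξz' h2 h4 hP hX' hA']

theorem Cov.good_unique (h : Cov p) {φ : Dual F V} {w : V} (hφ : φ w = 0) {T T' : Y}
    (hT : Good p φ w T) (hT' : Good p φ w T') : T = T' := by
  have := h.fin
  have hdim := h.dim
  obtain ⟨η, z, X, A, h1, h2, h3, h4, h5, rfl⟩ := hT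
  obtain ⟨η', z', X', A', h1', h2', h3', h4', h5', rfl⟩ := hT'
  obtain ⟨y, hy, hyw⟩ := exists_vec1 φ (F ∙ w ⊔ F ∙ z ⊔ F ∙ z') (by
    have e1 := fr_add (F ∙ w) z
    have e2 := fr_add (F ∙ w ⊔ F ∙ z) z'
    have e3 := fr_one (F := F) w
    omega)
  have hy1 : y ∉ F ∙ w ⊔ F ∙ z := fun hc => hyw (Submodule.mem_sup_left hc)
  have hy2 : y ∉ F ∙ w ⊔ F ∙ z' := by
    intro hc
    refine hyw ((sup_le ?_ ?_ : F ∙ w ⊔ F ∙ z' ≤ _) hc)
    · exact le_sup_left.trans le_sup_left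
    · exact le_sup_right
  obtain ⟨ζ, hζ1, hζ2⟩ := exists_dual _ hy1
  have hζw : ζ w = 0 := hζ2 w mem_l
  obtain ⟨P, hP⟩ := h.lift_tv hζw
  obtain ⟨Q, hQ⟩ := h.lift_tv hy
  rw [h.good_link hφ h2 hζw h1 hζ1 h3 hy hy1 h4 hP h5 hQ,
    h.good_link hφ h2' hζw h1' hζ1 h3' hy hy2 h4' hP h5' hQ]

/-- the canonical lift of the transvection `x ↦ x + φ x • w` -/
noncomputable def s (p : Y →* Module.End F V) (φ : Dual F V) (w : V) : Y := by
  classical exact if h : ∃ T, Good p φ w T then h.choose else 1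

theorem Cov.good_s (h : Cov p) (φ : Dual F V) (w : V) : Good p φ w (s p φ w) := by
  have h1 : ∃ T, Good p φ w T := h.good_exists
  unfold s
  rw [dif_pos h1]
  exact h1.choose_spec

theorem Cov.eq_s (h : Cov p) {φ : Dual F V} {w : V} (hφ : φ w = 0) {T : Y} (hT : Good p φ w T) :
    s p φ w = T :=
  h.good_unique hφ (h.good_s φ w) hT

theorem Cov.map_s (h : Cov p) {φ : Dual F V} {w : V} (hφ : φ w = 0) :
    p (s p φ w) = tv φ w :=
  (h.good_s φ w).map hφ

theorem Cov.s_commute (h : Cov p) {φ α : Dual F V} {w a : V} (h1 : φ w = 0) (h2 : α a = 0)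
    (h3 : φ a = 0) (h4 : α w = 0) : Commute (s p φ w) (s p α a) :=
  h.comm_tv h1 h2 h3 h4 (h.map_s h1) (h.map_s h2)

theorem p_inv_apply (p : Y →* Module.End F V) (g : Y) (x : V) : p g⁻¹ (p g x) = x := by
  rw [← Module.End.mul_apply, p_inv_mul, Module.End.one_apply]

theorem p_apply_inv (p : Y →* Module.End F V) (g : Y) (x : V) : p g (p g⁻¹ x) = x := by
  rw [← Module.End.mul_apply, p_mul_inv, Module.End.one_apply]

theorem tv_conj (p : Y →* Module.End F V) (g : Y) (φ : Dual F V) (w : V) :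
    p g * tv φ w * p g⁻¹ = tv (φ ∘ₗ p g⁻¹) (p g w) := by
  ext x
  simp only [Module.End.mul_apply, tv_apply, map_add, map_smul, p_apply_inv, LinearMap.comp_apply]

/-- conjugation of canonical lifts -/
theorem Cov.s_conj (h : Cov p) (g : Y) {φ : Dual F V} {w : V} (hφ : φ w = 0) :
    g * s p φ w * g⁻¹ = s p (φ ∘ₗ p g⁻¹) (p g w) := by
  symm
  apply h.eq_s
  · rw [LinearMap.comp_apply, p_inv_apply, hφ]
  · obtain ⟨η, z, X, A, h1, h2, h3, h4, h5, h6⟩ := h.good_s φ w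
    refine ⟨η ∘ₗ p g⁻¹, p g z, g * X * g⁻¹, g * A * g⁻¹, ?_, ?_, ?_, ?_, ?_, ?_⟩
    · rw [LinearMap.comp_apply, p_inv_apply, h1]
    · rw [LinearMap.comp_apply, p_inv_apply, h2]
    · rw [LinearMap.comp_apply, p_inv_apply, h3]
    · rw [map_mul, map_mul, h4, tv_conj]
    · rw [map_mul, map_mul, h5, tv_conj]
    · rw [h6, conj_comm]

theorem Cov.s_conj' (h : Cov p) (g : Y) {φ ψ : Dual F V} {w v : V} (hφ : φ w = 0)
    (hv : p g w = v) (hψ : ψ ∘ₗ p g = φ) : g * s p φ w * g⁻¹ = s p ψ v := by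
  rw [h.s_conj g hφ, hv]
  congr 1
  rw [← hψ]
  ext x
  rw [LinearMap.comp_apply, LinearMap.comp_apply, p_apply_inv]

theorem Cov.s_add_right (h : Cov p) {φ : Dual F V} {v w : V} (hv : φ v = 0) (hw : φ w = 0) :
    s p φ (v + w) = s p φ v * s p φ w := by
  have := h.fin
  have hdim := h.dim
  obtain ⟨z, hz, hzw⟩ := exists_vec1 φ (F ∙ v ⊔ F ∙ w) (by
    have e1 := fr_add (F ∙ v) w
    have e3 := fr_one (F := F) v
    omega)
  obtain ⟨η, h1, h2⟩ := exists_dual _ hzw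
  have hηv : η v = 0 := h2 v mem_l
  have hηw : η w = 0 := h2 w mem_r
  obtain ⟨X, hX⟩ := h.lift_tv hηv
  obtain ⟨X', hX'⟩ := h.lift_tv hηw
  obtain ⟨A, hA⟩ := h.lift_tv hz
  rw [h.eq_s hv ⟨η, z, X, A, h1, hηv, hz, hX, hA, rfl⟩,
    h.eq_s hw ⟨η, z, X', A, h1, hηw, hz, hX', hA, rfl⟩,
    h.eq_s (T := ⁅X * X', A⁆) (by rw [map_add, hv, hw, add_zero])
      ⟨η, z, X * X', A, h1, by rw [map_add, hηv, hηw, add_zero], hz,
        by rw [map_mul, hX, hX', tv_add_right hηw], hA, rfl⟩, comm_mul_left]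
  have e2 : p ⁅X', A⁆ = tv φ w := p_comm (by rw [hX', hA]; exact tv_rel h1 hηw hz hw)
  have e1 : p ⁅X, A⁆ = tv φ v := p_comm (by rw [hX, hA]; exact tv_rel h1 hηv hz hv)
  rw [conj_of_commute (h.comm_tv hηv hw hηw hv hX e2)]
  exact (h.comm_tv hw hv hv hw e2 e1).eq

theorem Cov.s_add_left (h : Cov p) {φ ψ : Dual F V} {w : V} (hφ : φ w = 0) (hψ : ψ w = 0) :
    s p (φ + ψ) w = s p φ w * s p ψ w := by
  have := h.fin
  have hdim := h.dim
  obtain ⟨z, hz, hz', hzw⟩ := exists_vec φ ψ (F ∙ w) (by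
    have e3 := fr_one (F := F) w
    omega)
  obtain ⟨η, h1, h2⟩ := exists_dual _ hzw
  have hηw : η w = 0 := h2 w (Submodule.mem_span_singleton_self w)
  obtain ⟨X, hX⟩ := h.lift_tv hηw
  obtain ⟨A, hA⟩ := h.lift_tv hz
  obtain ⟨A', hA'⟩ := h.lift_tv hz'
  rw [h.eq_s hφ ⟨η, z, X, A, h1, hηw, hz, hX, hA, rfl⟩,
    h.eq_s hψ ⟨η, z, X, A', h1, hηw, hz', hX, hA', rfl⟩,
    h.eq_s (T := ⁅X, A * A'⁆) (by rw [LinearMap.add_apply, hφ, hψ, add_zero])
      ⟨η, z, X, A * A', h1, hηw, by rw [LinearMap.add_apply, hz, hz', add_zero],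
        hX, by rw [map_mul, hA, hA', tv_add_left hz], rfl⟩, comm_mul_right]
  have e2 : p ⁅X, A'⁆ = tv ψ w := p_comm (by rw [hX, hA']; exact tv_rel h1 hηw hz' hψ)
  rw [conj_of_commute (h.comm_tv hz hψ hφ hz' hA e2)]

theorem Cov.s_zero_right (h : Cov p) (φ : Dual F V) : s p φ 0 = 1 := by
  have h1 := h.s_add_right (map_zero φ) (map_zero φ)
  rw [add_zero] at h1
  exact (mul_eq_left.1 h1.symm)

theorem Cov.s_zero_left (h : Cov p) (w : V) : s p (0 : Dual F V) w = 1 := by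
  have h1 := h.s_add_left (φ := 0) (ψ := 0) (w := w) rfl rfl
  rw [add_zero] at h1
  exact (mul_eq_left.1 h1.symm)

theorem Cov.s_neg_right (h : Cov p) {φ : Dual F V} {w : V} (hw : φ w = 0) :
    s p φ (-w) = (s p φ w)⁻¹ := by
  have h1 := h.s_add_right hw (w := -w) (by rw [map_neg, hw, neg_zero])
  rw [add_neg_cancel, h.s_zero_right] at h1
  exact (inv_eq_of_mul_eq_one_right h1.symm).symm

theorem Cov.s_smul (h : Cov p) {φ : Dual F V} {w : V} (hw : φ w = 0) (c : F) :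
    s p (c • φ) w = s p φ (c • w) := by
  by_cases hc : c = 0
  · subst hc
    rw [zero_smul, zero_smul, h.s_zero_left, h.s_zero_right]
  obtain ⟨η, z, X, A, h1, h2, h3, h4, h5, h6⟩ := h.good_s (c • φ) w
  rw [LinearMap.smul_apply, smul_eq_mul, mul_eq_zero] at h3
  have h3' := h3.resolve_left hc
  rw [h6, h.eq_s (φ := φ) (w := c • w) (T := ⁅X, A⁆) (by rw [map_smul, hw, smul_zero])]
  refine ⟨c⁻¹ • η, c • z, X, A, ?_, ?_, ?_, ?_, ?_, rfl⟩
  · rw [map_smul, LinearMap.smul_apply, h1, smul_eq_mul, smul_eq_mul, mul_one, mul_inv_cancel₀ hc]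
  · rw [map_smul, LinearMap.smul_apply, h2, smul_zero, smul_zero]
  · rw [map_smul, h3', smul_zero]
  · rw [tv_smul, smul_smul, inv_mul_cancel₀ hc, one_smul, h4]
  · rw [h5, tv_smul]

end Pool.Agent.H21.SLc
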