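import Pool.Agent.H21.SLc.Base

/-!
Central extensions of special linear groups: the stabiliser chain.
-/

open Module LinearMap
open scoped commutatorElement

namespace Pool.Agent.H21.SLc

variable {F V Y : Type} [Field F] [AddCommGroup V] [Module F V] [Group Y]
  {p : Y →* Module.End F V}

/-- canonical lifts of transvections fixing `W` pointwise -/
def Tr (p : Y →* Module.End F V) (W : Submodule F V) (t : Y) : Prop :=
  ∃ (φ : Dual F V) (w : V), (∀ x ∈ W, φ x = 0) ∧ φ w = 0 ∧ t = s p φ w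

/-- the group generated by canonical lifts of transvections fixing `W` pointwise -/
def Q (p : Y →* Module.End F V) (W : Submodule F V) : Subgroup Y :=
  Subgroup.closure {t | Tr p W t}

theorem Tr.mem {W : Submodule F V} {t : Y} (h : Tr p W t) : t ∈ Q p W :=
  Subgroup.subset_closure h

theorem mem_Q {W : Submodule F V} {φ : Dual F V} {w : V} (h1 : ∀ x ∈ W, φ x = 0) (h2 : φ w = 0) :
    s p φ w ∈ Q p W := Tr.mem ⟨φ, w, h1, h2, rfl⟩

theorem Tr.mono {W W' : Submodule F V} (hW : W ≤ W') {t : Y} (h : Tr p W' t) : Tr p W t := by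
  obtain ⟨φ, w, h1, h2, h3⟩ := h
  exact ⟨φ, w, fun x hx => h1 x (hW hx), h2, h3⟩

theorem Q_mono {W W' : Submodule F V} (hW : W ≤ W') : Q p W' ≤ Q p W :=
  Subgroup.closure_mono fun _ ht => Tr.mono hW ht

theorem fix_inv {g : Y} {x : V} (h : p g x = x) : p g⁻¹ x = x := by
  conv_lhs => rw [← h]
  exact p_inv_apply p g x

theorem Tr.fix (h : Cov p) {W : Submodule F V} {t : Y} (ht : Tr p W t) {x : V} (hx : x ∈ W) :
    p t x = x := by
  obtain ⟨φ, w, h1, h2, rfl⟩ := ht
  rw [h.map_s h2, tv_apply, h1 x hx, zero_smul, add_zero]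

theorem Q_fix (h : Cov p) {W : Submodule F V} {g : Y} (hg : g ∈ Q p W) :
    ∀ x ∈ W, p g x = x := by
  unfold Q at hg
  induction hg using Subgroup.closure_induction with
  | mem t ht => exact fun x hx => Tr.fix h ht hx
  | one => intro x _; rw [map_one]; rfl
  | mul a b _ _ ha hb => intro x hx; rw [map_mul, Module.End.mul_apply, hb x hx, ha x hx]
  | inv a _ ha => intro x hx; exact fix_inv (ha x hx)

theorem Tr.conj (h : Cov p) {W : Submodule F V} {g t : Y} (ht : Tr p W t)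
    (hg : ∀ x ∈ W, p g x = x) : Tr p W (g * t * g⁻¹) := by
  obtain ⟨φ, w, h1, h2, rfl⟩ := ht
  refine ⟨φ ∘ₗ p g⁻¹, p g w, fun x hx => ?_, ?_, h.s_conj g h2⟩
  · rw [LinearMap.comp_apply, fix_inv (hg x hx), h1 x hx]
  · rw [LinearMap.comp_apply, p_inv_apply, h2]

theorem Tr.inv (h : Cov p) {W : Submodule F V} {t : Y} (ht : Tr p W t) : Tr p W t⁻¹ := by
  obtain ⟨φ, w, h1, h2, rfl⟩ := ht
  exact ⟨φ, -w, h1, by rw [map_neg, h2, neg_zero], (h.s_neg_right h2).symm⟩

theorem Tr.one (h : Cov p) (W : Submodule F V) : Tr p W 1 :=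
  ⟨0, 0, fun _ _ => rfl, rfl, (h.s_zero_left 0).symm⟩

theorem Tr.normal (h : Cov p) {W : Submodule F V} {e : V} {t : Y} (ht : Tr p W t) :
    Tr p (W ⊔ F ∙ e) t ∨ ∃ (φ : Dual F V) (w : V), (∀ x ∈ W, φ x = 0) ∧ φ w = 0 ∧ φ e = 1 ∧
      t = s p φ w := by
  obtain ⟨φ, w, h1, h2, rfl⟩ := ht
  by_cases he : φ e = 0
  · left
    refine ⟨φ, w, fun x hx => ?_, h2, rfl⟩
    obtain ⟨a, ha, b, hb, rfl⟩ := Submodule.mem_sup.1 hx
    obtain ⟨c, rfl⟩ := Submodule.mem_span_singleton.1 hb
    rw [map_add, h1 a ha, map_smul, he, smul_zero, add_zero]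
  · right
    refine ⟨(φ e)⁻¹ • φ, φ e • w, fun x hx => ?_, ?_, ?_, ?_⟩
    · rw [LinearMap.smul_apply, h1 x hx, smul_zero]
    · rw [map_smul, LinearMap.smul_apply, h2, smul_zero, smul_zero]
    · rw [LinearMap.smul_apply, smul_eq_mul, inv_mul_cancel₀ he]
    · rw [h.s_smul (by rw [map_smul, h2, smul_zero]), smul_smul, inv_mul_cancel₀ he, one_smul]

theorem killsup {W : Submodule F V} {φ : Dual F V} {e : V} (h1 : ∀ x ∈ W, φ x = 0)
    (h2 : φ e = 0) : ∀ x ∈ W ⊔ F ∙ e, φ x = 0 := by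
  intro x hx
  obtain ⟨a, ha, b, hb, rfl⟩ := Submodule.mem_sup.1 hx
  obtain ⟨c, rfl⟩ := Submodule.mem_span_singleton.1 hb
  rw [map_add, h1 a ha, map_smul, h2, smul_zero, add_zero]

/-- product of two transvections in general position -/
theorem Cov.two (h : Cov p) {W : Submodule F V} {e w u : V} {φ χ : Dual F V}
    (hφW : ∀ x ∈ W, φ x = 0) (hχW : ∀ x ∈ W, χ x = 0) (hφ : φ w = 0) (hχ : χ u = 0)
    (hφe : φ e = 1) (hχe : χ e = 1) (he : e ∉ W ⊔ (F ∙ w ⊔ F ∙ u)) :
    ∃ ξ : Dual F V, (∀ x ∈ W, ξ x = 0) ∧ ξ w = 0 ∧ ξ u = 0 ∧ ξ e = 1 ∧ ∃ q ∈ Q p (W ⊔ F ∙ e),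
      s p φ w * s p χ u = s p ξ (w + u + φ u • w) * q := by
  obtain ⟨ξ, hξe, hξ⟩ := exists_dual _ he
  have hξW : ∀ x ∈ W, ξ x = 0 := fun x hx => hξ x (Submodule.mem_sup_left hx)
  have hξw : ξ w = 0 := hξ w (Submodule.mem_sup_right mem_l)
  have hξu : ξ u = 0 := hξ u (Submodule.mem_sup_right mem_r)
  have h1 : (φ - ξ) w = 0 := by rw [LinearMap.sub_apply, hφ, hξw, sub_zero]
  have h2 : (χ - ξ) u = 0 := by rw [LinearMap.sub_apply, hχ, hξu, sub_zero]
  have e1 : s p φ w = s p ξ w * s p (φ - ξ) w := by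
    rw [← h.s_add_left hξw h1, add_sub_cancel]
  have e2 : s p χ u = s p ξ u * s p (χ - ξ) u := by
    rw [← h.s_add_left hξu h2, add_sub_cancel]
  have e3 : s p (φ - ξ) w * s p ξ u * (s p (φ - ξ) w)⁻¹ = s p ξ (u + φ u • w) := by
    apply h.s_conj' _ hξu
    · rw [h.map_s h1, tv_apply, LinearMap.sub_apply, hξu, sub_zero]
    · rw [h.map_s h1]
      ext x
      rw [LinearMap.comp_apply, tv_apply, map_add, map_smul, hξw, smul_zero, add_zero]
  have hg : s p (φ - ξ) w ∈ Q p (W ⊔ F ∙ e) := by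
    refine mem_Q (killsup (fun x hx => ?_) ?_) h1
    · rw [LinearMap.sub_apply, hφW x hx, hξW x hx, sub_zero]
    · rw [LinearMap.sub_apply, hφe, hξe, sub_self]
  have hg' : s p (χ - ξ) u ∈ Q p (W ⊔ F ∙ e) := by
    refine mem_Q (killsup (fun x hx => ?_) ?_) h2
    · rw [LinearMap.sub_apply, hχW x hx, hξW x hx, sub_zero]
    · rw [LinearMap.sub_apply, hχe, hξe, sub_self]
  refine ⟨ξ, hξW, hξw, hξu, hξe, _, mul_mem hg hg', ?_⟩
  calc s p φ w * s p χ u
      = s p ξ w * (s p (φ - ξ) w * s p ξ u * (s p (φ - ξ) w)⁻¹)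
        * (s p (φ - ξ) w * s p (χ - ξ) u) := by rw [e1, e2]; group
    _ = s p ξ w * s p ξ (u + φ u • w) * (s p (φ - ξ) w * s p (χ - ξ) u) := by rw [e3]
    _ = _ := by
      rw [← h.s_add_right hξw (by rw [map_add, map_smul, hξu, hξw, smul_zero, add_zero]),
        ← add_assoc]

theorem exists_vec2 [FiniteDimensional F V] (φ : Dual F V) (S : Submodule F V) {e : V}
    (he : e ∈ S) (hφe : φ e = 1) (hS : finrank F S < finrank F V) :
    ∃ b, φ b = 0 ∧ b ∉ S := by
  by_contra hcon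
  push Not at hcon
  have h1 : S = ⊤ := by
    rw [eq_top_iff]
    intro x _
    have h2 : x = (x - φ x • e) + φ x • e := by abel
    rw [h2]
    refine add_mem (hcon _ ?_) (Submodule.smul_mem _ _ he)
    rw [map_sub, map_smul, hφe, smul_eq_mul, mul_one, sub_self]
  rw [h1, finrank_top] at hS
  exact lt_irrefl _ hS

theorem fr_two [FiniteDimensional F V] (W : Submodule F V) (a b : V) :
    finrank F (W ⊔ (F ∙ a ⊔ F ∙ b) : Submodule F V) ≤ finrank F W + 2 := by
  rw [← sup_assoc]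
  have h1 := fr_add W a
  have h2 := fr_add (W ⊔ F ∙ a) b
  omega

/-- choice of an auxiliary vector, more than two scalars -/
theorem exists_z [FiniteDimensional F V] (W : Submodule F V) {e : V} (φ : Dual F V)
    (hφe : φ e = 1) (hW : finrank F W + 3 ≤ finrank F V) (w u y : V)
    {c : F} (hc0 : c ≠ 0) (hc1 : c ≠ 1) :
    ∃ z, φ z = 0 ∧ z ∉ W ⊔ (F ∙ e ⊔ F ∙ u) ∧ w - z ∉ W ⊔ (F ∙ e ⊔ F ∙ y) := by
  set A := W ⊔ (F ∙ e ⊔ F ∙ u) with hA
  set B := W ⊔ (F ∙ e ⊔ F ∙ y) with hB
  have hAf := fr_two W e u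
  have hBf := fr_two W e y
  rw [← hA] at hAf
  rw [← hB] at hBf
  obtain ⟨z0, hz0, hz0A⟩ := exists_vec2 φ A (Submodule.mem_sup_right mem_l) hφe (by omega)
  obtain ⟨z1, hz1, hz1B⟩ := exists_vec2 φ B (Submodule.mem_sup_right mem_l) hφe (by omega)
  by_cases h1 : z0 ∈ B
  · by_cases h2 : w ∈ B
    · by_cases h3 : z1 ∈ A
      · refine ⟨z0 + z1, by rw [map_add, hz0, hz1, add_zero], fun hc => hz0A ?_, fun hc => hz1B ?_⟩
        · have := sub_mem hc h3
          rwa [add_sub_cancel_right] at this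
        · have := sub_mem (sub_mem h2 h1) hc
          rwa [show w - z0 - (w - (z0 + z1)) = z1 by abel] at this
      · exact ⟨z1, hz1, h3, fun hc => hz1B (by
          have := sub_mem h2 hc
          rwa [sub_sub_cancel] at this)⟩
    · exact ⟨z0, hz0, hz0A, fun hc => h2 (by
          have := add_mem hc h1
          rwa [sub_add_cancel] at this)⟩
  · by_cases h2 : w - z0 ∈ B
    · refine ⟨c • z0, by rw [map_smul, hz0, smul_zero], fun hc => hz0A ?_, fun hc => h1 ?_⟩
      · have := Submodule.smul_mem _ c⁻¹ hc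
        rwa [smul_smul, inv_mul_cancel₀ hc0, one_smul] at this
      · have := Submodule.smul_mem _ (c - 1)⁻¹ (sub_mem h2 hc)
        rwa [show w - z0 - (w - c • z0) = (c - 1) • z0 by rw [sub_smul, one_smul]; abel,
          smul_smul, inv_mul_cancel₀ (sub_ne_zero.2 hc1), one_smul] at this
    · exact ⟨z0, hz0, hz0A, h2⟩

/-- two transvections over the field with two elements -/
theorem Cov.two' (h : Cov p) (hF : ∀ c : F, c = 0 ∨ c = 1) {W : Submodule F V} {e w u : V}
    {φ χ : Dual F V} (hW : finrank F W + 3 ≤ finrank F V)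
    (hφW : ∀ x ∈ W, φ x = 0) (hχW : ∀ x ∈ W, χ x = 0) (hφ : φ w = 0) (hχ : χ u = 0)
    (hφe : φ e = 1) (hχe : χ e = 1) :
    ∃ t, Tr p W t ∧ ∃ q ∈ Q p (W ⊔ F ∙ e), s p φ w * s p χ u = t * q := by
  have := h.fin
  by_cases he : e ∈ W ⊔ (F ∙ w ⊔ F ∙ u)
  · obtain ⟨w0, hw0, v, hv, hev⟩ := Submodule.mem_sup.1 he
    obtain ⟨v1, hv1, v2, hv2, rfl⟩ := Submodule.mem_sup.1 hv
    obtain ⟨α, rfl⟩ := Submodule.mem_span_singleton.1 hv1
    obtain ⟨β, rfl⟩ := Submodule.mem_span_singleton.1 hv2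
    have hα : α ≠ 0 := by
      rintro rfl
      have := congrArg χ hev
      rw [map_add, map_add, map_smul, map_smul, hχW _ hw0, hχ, hχe, zero_smul, smul_zero, add_zero,
        add_zero] at this
      exact zero_ne_one this
    have hβφ : β * φ u = 1 := by
      have := congrArg φ hev
      rwa [map_add, map_add, map_smul, map_smul, hφW _ hw0, hφ, hφe, smul_zero, zero_add,
        zero_add, smul_eq_mul] at this
    have hφu : φ u = 1 := (hF (φ u)).resolve_left (by rintro h0; rw [h0, mul_zero] at hβφ; exact zero_ne_one hβφ)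
    have h2 : (1 : F) + 1 = 0 := by
      rcases hF (-1) with h0 | h0
      · rw [neg_eq_zero] at h0; exact absurd h0 one_ne_zero
      · nth_rewrite 1 [← h0]; exact neg_add_cancel 1
    have hAf := fr_two W e u
    obtain ⟨z, hz, hzA⟩ := exists_vec2 φ (W ⊔ (F ∙ e ⊔ F ∙ u)) (Submodule.mem_sup_right mem_l) hφe
      (by omega)
    have hwA : w ∈ W ⊔ (F ∙ e ⊔ F ∙ u) := by
      have h3 : α • w = e - w0 - β • u := by rw [← hev]; abel
      have h4 : α • w ∈ W ⊔ (F ∙ e ⊔ F ∙ u) := by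
        rw [h3]
        exact sub_mem (sub_mem (Submodule.mem_sup_right mem_l) (Submodule.mem_sup_left hw0))
          (Submodule.smul_mem _ _ (Submodule.mem_sup_right mem_r))
      have := Submodule.smul_mem _ α⁻¹ h4
      rwa [smul_smul, inv_mul_cancel₀ hα, one_smul] at this
    have hez : e ∉ W ⊔ (F ∙ z ⊔ F ∙ u) := by
      intro hc
      obtain ⟨w0, hw0, v, hv, hev⟩ := Submodule.mem_sup.1 hc
      obtain ⟨v1, hv1, v2, hv2, rfl⟩ := Submodule.mem_sup.1 hv
      obtain ⟨a, rfl⟩ := Submodule.mem_span_singleton.1 hv1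
      obtain ⟨b, rfl⟩ := Submodule.mem_span_singleton.1 hv2
      by_cases ha : a = 0
      · subst ha
        have := congrArg χ hev
        rw [map_add, map_add, map_smul, map_smul, hχW _ hw0, hχ, hχe, zero_smul, smul_zero,
          add_zero, add_zero] at this
        exact zero_ne_one this
      · apply hzA
        have h3 : a • z = e - w0 - b • u := by rw [← hev]; abel
        have h4 : a • z ∈ W ⊔ (F ∙ e ⊔ F ∙ u) := by
          rw [h3]
          exact sub_mem (sub_mem (Submodule.mem_sup_right mem_l) (Submodule.mem_sup_left hw0))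
            (Submodule.smul_mem _ _ (Submodule.mem_sup_right mem_r))
        have := Submodule.smul_mem _ a⁻¹ h4
        rwa [smul_smul, inv_mul_cancel₀ ha, one_smul] at this
    obtain ⟨ξ, hξW, hξz, hξu, hξe, q, hq, hprod⟩ := h.two hφW hχW hz hχ hφe hχe hez
    have e5 : z + u + φ u • z = u := by
      rw [hφu, show z + u + (1 : F) • z = u + ((1 : F) + 1) • z by rw [add_smul, one_smul]; abel,
        h2, zero_smul, add_zero]
    rw [e5] at hprod
    have hwz : φ (w - z) = 0 := by rw [map_sub, hφ, hz, sub_zero]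
    have hew : e ∉ W ⊔ (F ∙ (w - z) ⊔ F ∙ u) := by
      intro hc
      obtain ⟨w0, hw0, v, hv, hev⟩ := Submodule.mem_sup.1 hc
      obtain ⟨v1, hv1, v2, hv2, rfl⟩ := Submodule.mem_sup.1 hv
      obtain ⟨a, rfl⟩ := Submodule.mem_span_singleton.1 hv1
      obtain ⟨b, rfl⟩ := Submodule.mem_span_singleton.1 hv2
      by_cases ha : a = 0
      · subst ha
        have := congrArg χ hev
        rw [map_add, map_add, map_smul, map_smul, hχW _ hw0, hχ, hχe, zero_smul, smul_zero,
          add_zero, add_zero] at this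
        exact zero_ne_one this
      · apply hzA
        have h3 : a • z = w0 + b • u + a • w - e := by rw [← hev, smul_sub]; abel
        have h4 : a • z ∈ W ⊔ (F ∙ e ⊔ F ∙ u) := by
          rw [h3]
          exact sub_mem (add_mem (add_mem (Submodule.mem_sup_left hw0)
            (Submodule.smul_mem _ _ (Submodule.mem_sup_right mem_r)))
            (Submodule.smul_mem _ _ hwA)) (Submodule.mem_sup_right mem_l)
        have := Submodule.smul_mem _ a⁻¹ h4
        rwa [smul_smul, inv_mul_cancel₀ ha, one_smul] at this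
    obtain ⟨ξ', hξ'W, hξ'w, hξ'u, -, q', hq', hprod'⟩ := h.two hφW hξW hwz hξu hφe hξe hew
    refine ⟨_, ⟨ξ', w - z + u + φ u • (w - z), hξ'W, ?_, rfl⟩, q' * q, mul_mem hq' hq, ?_⟩
    · rw [map_add, map_add, map_smul, hξ'w, hξ'u, smul_zero, add_zero, add_zero]
    · have e6 : s p φ w = s p φ (w - z) * s p φ z := by
        rw [← h.s_add_right hwz hz, sub_add_cancel]
      rw [e6, mul_assoc, hprod, ← mul_assoc, hprod', mul_assoc]
  · obtain ⟨ξ, hξW, hξw, hξu, -, q, hq, hprod⟩ := h.two hφW hχW hφ hχ hφe hχe he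
    refine ⟨_, ⟨ξ, w + u + φ u • w, hξW, ?_, rfl⟩, q, hq, hprod⟩
    rw [map_add, map_add, map_smul, hξw, hξu, smul_zero, add_zero, add_zero]

/-- products of at most two transvections modulo the stabiliser -/
def R2 (p : Y →* Module.End F V) (W : Submodule F V) (e : V) (g : Y) : Prop :=
  ∃ t1 t2 q, Tr p W t1 ∧ Tr p W t2 ∧ q ∈ Q p (W ⊔ F ∙ e) ∧ g = t1 * t2 * q

theorem Cov.three (h : Cov p) {W : Submodule F V} {e : V}
    (hW : finrank F W + 3 ≤ finrank F V) {t0 t1 t2 : Y} (h0 : Tr p W t0) (h1 : Tr p W t1)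
    (h2 : Tr p W t2) : R2 p W e (t0 * t1 * t2) := by
  have := h.fin
  rcases h0.normal h (e := e) with h0' | ⟨η, y, hηW, hη, hηe, rfl⟩
  · -- `t0` fixes `e`
    refine ⟨_, _, t0, h1.conj h (fun x hx => Tr.fix h h0 hx), h2.conj h
      (fun x hx => Tr.fix h h0 hx), h0'.mem, ?_⟩
    group
  rcases h2.normal h (e := e) with h2' | ⟨χ, u, hχW, hχ, hχe, rfl⟩
  · exact ⟨_, _, t2, h0, h1, h2'.mem, rfl⟩
  rcases h1.normal h (e := e) with h1' | ⟨φ, w, hφW, hφ, hφe, rfl⟩
  · refine ⟨_, _, t1, h0, h2.conj h (fun x hx => Tr.fix h h1 hx), h1'.mem, ?_⟩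
    group
  have hconjq : ∀ {q t : Y}, q ∈ Q p (W ⊔ F ∙ e) → Tr p W t → Tr p W (q * t * q⁻¹) :=
    fun {q t} hq ht => ht.conj h (fun x hx => Q_fix h hq x (Submodule.mem_sup_left hx))
  by_cases hF : ∃ c : F, c ≠ 0 ∧ c ≠ 1
  · obtain ⟨c, hc0, hc1⟩ := hF
    obtain ⟨z, hz, hzA, hzB⟩ := exists_z W φ hφe hW w u y hc0 hc1
    have hwz : φ (w - z) = 0 := by rw [map_sub, hφ, hz, sub_zero]
    have hez : e ∉ W ⊔ (F ∙ z ⊔ F ∙ u) := by
      intro hc
      obtain ⟨w0, hw0, v, hv, hev⟩ := Submodule.mem_sup.1 hc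
      obtain ⟨v1, hv1, v2, hv2, rfl⟩ := Submodule.mem_sup.1 hv
      obtain ⟨a, rfl⟩ := Submodule.mem_span_singleton.1 hv1
      obtain ⟨b, rfl⟩ := Submodule.mem_span_singleton.1 hv2
      by_cases ha : a = 0
      · subst ha
        have := congrArg χ hev
        rw [map_add, map_add, map_smul, map_smul, hχW _ hw0, hχ, hχe, zero_smul, smul_zero,
          add_zero, add_zero] at this
        exact zero_ne_one this
      · apply hzA
        have h3 : a • z = e - w0 - b • u := by rw [← hev]; abel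
        have h4 : a • z ∈ W ⊔ (F ∙ e ⊔ F ∙ u) := by
          rw [h3]
          exact sub_mem (sub_mem (Submodule.mem_sup_right mem_l) (Submodule.mem_sup_left hw0))
            (Submodule.smul_mem _ _ (Submodule.mem_sup_right mem_r))
        have := Submodule.smul_mem _ a⁻¹ h4
        rwa [smul_smul, inv_mul_cancel₀ ha, one_smul] at this
    have hey : e ∉ W ⊔ (F ∙ y ⊔ F ∙ (w - z)) := by
      intro hc
      obtain ⟨w0, hw0, v, hv, hev⟩ := Submodule.mem_sup.1 hc
      obtain ⟨v1, hv1, v2, hv2, rfl⟩ := Submodule.mem_sup.1 hv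
      obtain ⟨a, rfl⟩ := Submodule.mem_span_singleton.1 hv1
      obtain ⟨b, rfl⟩ := Submodule.mem_span_singleton.1 hv2
      by_cases hb : b = 0
      · subst hb
        have := congrArg η hev
        rw [map_add, map_add, map_smul, map_smul, hηW _ hw0, hη, hηe, zero_smul, smul_zero,
          add_zero, add_zero] at this
        exact zero_ne_one this
      · apply hzB
        have h3 : b • (w - z) = e - w0 - a • y := by rw [← hev]; abel
        have h4 : b • (w - z) ∈ W ⊔ (F ∙ e ⊔ F ∙ y) := by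
          rw [h3]
          exact sub_mem (sub_mem (Submodule.mem_sup_right mem_l) (Submodule.mem_sup_left hw0))
            (Submodule.smul_mem _ _ (Submodule.mem_sup_right mem_r))
        have := Submodule.smul_mem _ b⁻¹ h4
        rwa [smul_smul, inv_mul_cancel₀ hb, one_smul] at this
    obtain ⟨ξ, hξW, hξz, hξu, hξe, q, hq, hprod⟩ := h.two hφW hχW hz hχ hφe hχe hez
    obtain ⟨ξ', hξ'W, hξ'y, hξ'w, -, q', hq', hprod'⟩ := h.two hηW hφW hη hwz hηe hφe hey
    have e6 : s p φ w = s p φ (w - z) * s p φ z := by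
      rw [← h.s_add_right hwz hz, sub_add_cancel]
    have hT1 : Tr p W (s p ξ (z + u + φ u • z)) := ⟨ξ, _, hξW, by
      rw [map_add, map_add, map_smul, hξz, hξu, smul_zero, add_zero, add_zero], rfl⟩
    have hT2 : Tr p W (s p ξ' (y + (w - z) + η (w - z) • y)) := ⟨ξ', _, hξ'W, by
      rw [map_add, map_add, map_smul, hξ'w, hξ'y, smul_zero, add_zero, add_zero], rfl⟩
    refine ⟨_, _, q' * q, hT2, hconjq hq' hT1, mul_mem hq' hq, ?_⟩
    calc s p η y * s p φ w * s p χ u
        = (s p η y * s p φ (w - z)) * (s p φ z * s p χ u) := by rw [e6]; group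
      _ = _ := by rw [hprod, hprod']; group
  · have hF' : ∀ c : F, c = 0 ∨ c = 1 := by
      intro c
      by_contra hcon
      push Not at hcon
      exact hF ⟨c, hcon⟩
    obtain ⟨t, ht, q, hq, hprod⟩ := h.two' hF' hW hφW hχW hφ hχ hφe hχe
    exact ⟨_, t, q, h0, ht, hq, by rw [mul_assoc, hprod, mul_assoc]⟩

theorem Cov.mem_R2 (h : Cov p) {W : Submodule F V} {e : V}
    (hW : finrank F W + 3 ≤ finrank F V) {g : Y} (hg : g ∈ Q p W) : R2 p W e g := by
  have hmul : ∀ t g, Tr p W t → R2 p W e g → R2 p W e (t * g) := by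
    rintro t g ht ⟨t1, t2, q, h1, h2, hq, rfl⟩
    obtain ⟨t1', t2', q', h1', h2', hq', e1⟩ := h.three (e := e) hW ht h1 h2
    refine ⟨t1', t2', q' * q, h1', h2', mul_mem hq' hq, ?_⟩
    rw [← mul_assoc, ← mul_assoc, e1, mul_assoc]
  unfold Q at hg
  induction hg using Subgroup.closure_induction_left with
  | one => exact ⟨1, 1, 1, Tr.one h W, Tr.one h W, one_mem _, by group⟩
  | mul_left t ht g _ ih => exact hmul t g ht ih
  | inv_mul_cancel t ht g _ ih => exact hmul _ g (Tr.inv h ht) ih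

/-- the stabiliser of one more vector -/
theorem Cov.stab (h : Cov p) {W : Submodule F V} {e : V}
    (hW : finrank F W + 3 ≤ finrank F V) {g : Y} (hg : g ∈ Q p W) (hge : p g e = e) :
    g ∈ Q p (W ⊔ F ∙ e) := by
  obtain ⟨t1, t2, q, h1, h2, hq, rfl⟩ := h.mem_R2 (e := e) hW hg
  refine mul_mem ?_ hq
  have hqe : p q e = e := Q_fix h hq e (Submodule.mem_sup_right (Submodule.mem_span_singleton_self e))
  have h12 : p t1 (p t2 e) = e := by
    rw [map_mul, map_mul, Module.End.mul_apply, Module.End.mul_apply, hqe] at hge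
    exact hge
  rcases h2.normal h (e := e) with h2' | ⟨χ, u, hχW, hχ, hχe, rfl⟩
  · refine mul_mem ?_ h2'.mem
    rw [Tr.fix h h2' (Submodule.mem_sup_right (Submodule.mem_span_singleton_self e))] at h12
    rcases h1.normal h (e := e) with h1' | ⟨φ, w, hφW, hφ, hφe, rfl⟩
    · exact h1'.mem
    · rw [h.map_s hφ, tv_apply, hφe, one_smul, add_eq_left] at h12
      rw [h12, h.s_zero_right]
      exact one_mem _
  · rw [h.map_s hχ, tv_apply, hχe, one_smul] at h12
    rcases h1.normal h (e := e) with h1' | ⟨φ, w, hφW, hφ, hφe, rfl⟩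
    · have h3 : p t1 e = e :=
        Tr.fix h h1' (Submodule.mem_sup_right (Submodule.mem_span_singleton_self e))
      rw [map_add, h3, add_eq_left] at h12
      have h4 : u = 0 := by rw [← p_inv_apply p t1 u, h12, map_zero]
      rw [h4, h.s_zero_right, mul_one]
      exact h1'.mem
    · have h13 : (s p φ w)⁻¹ = s p φ (-w) := (h.s_neg_right hφ).symm
      have h14 : e + u = e - w := by
        rw [← p_inv_apply p (s p φ w) (e + u), h12, h13, h.map_s (by rw [map_neg, hφ, neg_zero]),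
          tv_apply, hφe, one_smul, sub_eq_add_neg]
      have h15 : u = -w := by
        rw [sub_eq_add_neg] at h14
        exact add_left_cancel h14
      subst h15
      have hχw : χ w = 0 := by rwa [map_neg, neg_eq_zero] at hχ
      rw [h.s_neg_right hχw]
      have h16 : s p φ w = s p (φ - χ) w * s p χ w := by
        rw [← h.s_add_left (by rw [LinearMap.sub_apply, hφ, hχw, sub_zero]) hχw, sub_add_cancel]
      rw [h16, mul_inv_cancel_right]
      refine mem_Q (killsup (fun x hx => ?_) ?_) (by rw [LinearMap.sub_apply, hφ, hχw, sub_zero])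
      · rw [LinearMap.sub_apply, hφW x hx, hχW x hx, sub_zero]
      · rw [LinearMap.sub_apply, hφe, hχe, sub_self]

end Pool.Agent.H21.SLc
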