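import Pool.Agent.H21.SLc.Sym

/-!
Central extensions of special linear groups over finite fields: symbols are trivial.
-/

open Module LinearMap Polynomial
open scoped commutatorElement

namespace Pool.Agent.H21.SLc

section field

variable {F : Type} [Field F] [Finite F]

/-- If `-1` is not a square then some `T ^ 2 + 4` is not a square. -/
theorem exists_disc (h : ¬ IsSquare (-1 : F)) : ∃ T : F, ¬ IsSquare (T ^ 2 + 4) := by
  by_contra hcon
  push Not at hcon
  have h2 : (2 : F) ≠ 0 := by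
    intro h2
    apply h
    have : (-1 : F) = 1 := by
      rw [neg_eq_iff_add_eq_zero, one_add_one_eq_two, h2]
    rw [this]
    exact IsSquare.one
  have hadd : ∀ a b : F, IsSquare (a ^ 2 + b ^ 2) := by
    intro a b
    by_cases hb : b = 0
    · subst hb
      exact ⟨a, by ring⟩
    · obtain ⟨r, hr⟩ := hcon (2 * a / b)
      refine ⟨r * b / 2, ?_⟩
      have : r * b / 2 * (r * b / 2) = (r * r) * b ^ 2 / (2 * 2) := by
        rw [div_mul_div_comm]
        ring
      rw [this, ← hr]
      field_simp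
      ring
  have hnat : ∀ n : ℕ, IsSquare (n : F) := by
    intro n
    induction n with
    | zero => rw [Nat.cast_zero]; exact IsSquare.zero
    | succ n ih =>
      obtain ⟨r, hr⟩ := ih
      have := hadd r 1
      rwa [pow_two, ← hr, one_pow, ← Nat.cast_succ] at this
  obtain ⟨q, hq⟩ := CharP.exists F
  have hq0 : q ≠ 0 := by
    have := CharP.char_ne_zero_of_finite F q
    exact this
  apply h
  have h1 := hnat (q - 1)
  rwa [Nat.cast_sub (by omega), CharP.cast_eq_zero, zero_sub, Nat.cast_one] at h1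

/-- An element of norm `-1` and order dividing `2 (q + 1)`. -/
theorem exists_matrix [Fintype F] (h : ¬ IsSquare (-1 : F)) :
    ∃ T : F, (!![0, -(-1); 1, T] : Matrix (Fin 2) (Fin 2) F) ^ (Fintype.card F + 1)
      = (-1 : F) • 1 := by
  obtain ⟨T, hT⟩ := exists_disc h
  refine ⟨T, ?_⟩
  set f : F[X] := X ^ 2 - C T * X - 1 with hf
  have hmon : f.Monic := by rw [hf]; monicity!
  have hdeg : f.natDegree = 2 := by rw [hf]; compute_degree!
  have hirr : Irreducible f := by
    rw [hmon.irreducible_iff_roots_eq_zero_of_degree_le_three (by omega) (by omega)]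
    rw [Multiset.eq_zero_iff_forall_notMem]
    intro t ht
    rw [mem_roots hmon.ne_zero, IsRoot.def, hf] at ht
    simp only [eval_sub, eval_pow, eval_X, eval_mul, eval_C, eval_one] at ht
    exact hT ⟨2 * t - T, by linear_combination (-4) * ht⟩
  have : Fact (Irreducible f) := ⟨hirr⟩
  set ζ := AdjoinRoot.root f with hζ
  have hroot : ζ ^ 2 - algebraMap F (AdjoinRoot f) T * ζ - 1 = 0 := by
    have h1 := AdjoinRoot.eval₂_root f
    rw [hf] at h1
    simp only [eval₂_sub, eval₂_pow, eval₂_X, eval₂_mul, eval₂_C, eval₂_one] at h1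
    exact h1
  set q := Fintype.card F with hq
  have hroot' : (ζ ^ q) ^ 2 - algebraMap F (AdjoinRoot f) T * ζ ^ q - 1 = 0 := by
    have h1 := congrArg (FiniteField.frobeniusAlgHom F (AdjoinRoot f)) hroot
    rw [map_zero, map_sub, map_sub, map_mul, map_pow, map_one, AlgHom.commutes,
      FiniteField.coe_frobeniusAlgHom] at h1
    exact h1
  have hprod : (ζ ^ q - ζ) * (ζ ^ q - (algebraMap F (AdjoinRoot f) T - ζ)) = 0 := by
    linear_combination hroot' - hroot
  have hne : ζ ^ q - ζ ≠ 0 := by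
    intro h0
    have hpb := (AdjoinRoot.powerBasis hirr.ne_zero)
    have hfin : Module.finrank F (AdjoinRoot f) = 2 := by
      rw [(AdjoinRoot.powerBasis hirr.ne_zero).finrank, AdjoinRoot.powerBasis_dim, hdeg]
    have : FiniteDimensional F (AdjoinRoot f) := (AdjoinRoot.powerBasis hirr.ne_zero).finite
    have : Finite (AdjoinRoot f) := Module.finite_of_finite F
    have h1 := FiniteField.orderOf_frobeniusAlgHom F (AdjoinRoot f)
    have h2 : FiniteField.frobeniusAlgHom F (AdjoinRoot f) = 1 := by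
      apply AdjoinRoot.algHom_ext
      rw [FiniteField.coe_frobeniusAlgHom]
      exact sub_eq_zero.1 h0
    rw [h2, orderOf_one, hfin] at h1
    omega
  have h3 := (mul_eq_zero.1 hprod).resolve_left hne
  have h4 : ζ ^ (q + 1) = -1 := by
    rw [pow_succ, sub_eq_zero.1 h3]
    linear_combination -hroot
  have h5 : f ∣ X ^ (q + 1) + 1 := by
    rw [← AdjoinRoot.mk_eq_zero, map_add, map_pow, map_one, AdjoinRoot.mk_X, h4, neg_add_cancel]
  obtain ⟨g, hg⟩ := h5
  set Z : Matrix (Fin 2) (Fin 2) F := !![0, -(-1); 1, T] with hZ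
  have h6 : aeval Z f = 0 := by
    rw [hf]
    simp only [map_sub, map_pow, aeval_X, map_mul, aeval_C, map_one]
    rw [hZ, Algebra.algebraMap_eq_smul_one]
    ext i j
    fin_cases i <;> fin_cases j <;> simp [pow_two, Matrix.mul_apply, Fin.sum_univ_two]
  have h7 := congrArg (aeval Z) hg
  rw [map_mul, h6, zero_mul, map_add, map_pow, aeval_X, map_one] at h7
  rw [eq_neg_of_add_eq_zero_left h7]
  ext i j
  simp

end field

variable {F V Y ι : Type} [Field F] [AddCommGroup V] [Module F V] [Group Y]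
  {p : Y →* Module.End F V} {v : ι → V} {f : ι → Dual F V}

theorem sym_one_left (h : Cov p) (hf : Frame v f) {i j k : ι} (hij : i ≠ j) (hik : i ≠ k)
    (hjk : j ≠ k) {w : F} (hw : w ≠ 0) : ⁅ht p v f i j 1, ht p v f i k w⁆ = 1 := by
  have h1 := sym_mul_left h hf hij hik hjk one_ne_zero one_ne_zero hw
  rw [mul_one] at h1
  exact (mul_eq_left.1 h1.symm)

theorem sym_one_right (h : Cov p) (hf : Frame v f) {i j k : ι} (hij : i ≠ j) (hik : i ≠ k)
    (hjk : j ≠ k) {u : F} (hu : u ≠ 0) : ⁅ht p v f i j u, ht p v f i k 1⁆ = 1 := by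
  have h1 := sym_mul_right h hf hij hik hjk hu one_ne_zero one_ne_zero
  rw [mul_one] at h1
  exact (mul_eq_left.1 h1.symm)

theorem sym_pow_left (h : Cov p) (hf : Frame v f) {i j k : ι} (hij : i ≠ j) (hik : i ≠ k)
    (hjk : j ≠ k) {u w : F} (hu : u ≠ 0) (hw : w ≠ 0) (n : ℕ) :
    ⁅ht p v f i j (u ^ n), ht p v f i k w⁆ = ⁅ht p v f i j u, ht p v f i k w⁆ ^ n := by
  induction n with
  | zero => rw [pow_zero, pow_zero, sym_one_left h hf hij hik hjk hw]
  | succ n ih => rw [pow_succ, sym_mul_left h hf hij hik hjk (pow_ne_zero n hu) hu hw, ih, pow_succ]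

theorem sym_pow_right (h : Cov p) (hf : Frame v f) {i j k : ι} (hij : i ≠ j) (hik : i ≠ k)
    (hjk : j ≠ k) {u w : F} (hu : u ≠ 0) (hw : w ≠ 0) (n : ℕ) :
    ⁅ht p v f i j u, ht p v f i k (w ^ n)⁆ = ⁅ht p v f i j u, ht p v f i k w⁆ ^ n := by
  induction n with
  | zero => rw [pow_zero, pow_zero, sym_one_right h hf hij hik hjk hu]
  | succ n ih => rw [pow_succ, sym_mul_right h hf hij hik hjk hu (pow_ne_zero n hw) hw, ih, pow_succ]

theorem neg_one_smul_pow (N : F) :
    (!![0, -N; 1, 0] : Matrix (Fin 2) (Fin 2) F) ^ 2 = (-N) • 1 := by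
  ext i j
  fin_cases i <;> fin_cases j <;> simp [pow_two, Matrix.mul_apply, Fin.sum_univ_two]

/-- **Symbols over finite fields are trivial.** -/
theorem sym_trivial (h : Cov p) [Finite F] (hf : Frame v f) {i m j k : ι} (him : i ≠ m)
    (hij : i ≠ j) (hik : i ≠ k) (hmj : m ≠ j) (hmk : m ≠ k) (hjk : j ≠ k) {u w : F} (hu : u ≠ 0)
    (hw : w ≠ 0) : ⁅ht p v f i j u, ht p v f i k w⁆ = 1 := by
  have : Fintype F := Fintype.ofFinite F
  obtain ⟨g, hg⟩ := IsCyclic.exists_generator (α := Fˣ)
  have hg0 : (g : F) ≠ 0 := g.ne_zero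
  have hgen : ∀ x : F, x ≠ 0 → ∃ n : ℕ, x = (g : F) ^ n := by
    intro x hx
    obtain ⟨n, hn⟩ := (mem_powers_iff_mem_zpowers).2 (hg (Units.mk0 x hx))
    refine ⟨n, ?_⟩
    have := congrArg (fun t : Fˣ => (t : F)) hn
    simpa using this.symm
  set ε := ⁅ht p v f i j (g : F), ht p v f i k (g : F)⁆ with hε
  have hpow : ∀ a b : ℕ, ⁅ht p v f i j ((g : F) ^ a), ht p v f i k ((g : F) ^ b)⁆ = ε ^ (a * b) := by
    intro a b
    rw [sym_pow_left h hf hij hik hjk hg0 (pow_ne_zero b hg0),
      sym_pow_right h hf hij hik hjk hg0 hg0, ← pow_mul, mul_comm]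
  have hsq : ε * ε = 1 := sym_skew h hf hij hik hjk hg0 hg0
  have heven : ∀ n : ℕ, Even n → ε ^ n = 1 := by
    rintro n ⟨r, rfl⟩
    rw [← two_mul, pow_mul, pow_two, hsq, one_pow]
  have hodd : ∀ n : ℕ, ¬ Even n → ε ^ n = ε := by
    intro n hn
    obtain ⟨r, rfl⟩ := Nat.not_even_iff_odd.1 hn
    rw [pow_succ, heven _ (even_two_mul r), one_mul]
  have hone : ε = 1 := by
    by_cases hs : IsSquare (g : F)
    · obtain ⟨r, hr⟩ := hs
      have hr0 : r ≠ 0 := by rintro rfl; rw [mul_zero] at hr; exact hg0 hr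
      obtain ⟨a, rfl⟩ := hgen r hr0
      have h1 := hpow (a + a) 1
      rw [pow_one, pow_add, ← hr, mul_one] at h1
      rw [hε, h1]
      exact heven _ ⟨a, rfl⟩
    by_cases hm : IsSquare (-1 : F)
    · obtain ⟨r, hr⟩ := hm
      have hr0 : r ≠ 0 := by
        rintro rfl; rw [mul_zero] at hr; exact (neg_ne_zero.2 one_ne_zero) hr
      obtain ⟨a, rfl⟩ := hgen r hr0
      have h1 := sym_of_pow h hf him hij hik hmj hmk hjk (N := g) (c := -g) (T := 0) hg0
        (neg_ne_zero.2 hg0) (n := 2) even_two (neg_one_smul_pow _)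
      have h2 : (-(g : F)) = (g : F) ^ (a + a + 1) := by
        rw [pow_succ, pow_add, ← hr]; ring
      rw [h2] at h1
      have h3 := hpow (a + a + 1) 1
      rw [pow_one, h1, mul_one, hodd _ (by rw [Nat.even_add_one, not_not]; exact ⟨a, rfl⟩)] at h3
      exact h3.symm
    · obtain ⟨T, hT⟩ := exists_matrix hm
      have hcard : Even (Fintype.card F + 1) := by
        rw [Nat.even_add_one, Nat.not_even_iff]
        apply FiniteField.odd_card_of_char_ne_two
        intro h2
        exact hm (FiniteField.isSquare_of_char_two h2 _)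
      have h1 := sym_of_pow h hf him hij hik hmj hmk hjk (N := -1) (c := -1) (T := T)
        (neg_ne_zero.2 one_ne_zero) (neg_ne_zero.2 one_ne_zero) hcard hT
      obtain ⟨a, ha⟩ := hgen (-1) (neg_ne_zero.2 one_ne_zero)
      have hao : ¬ Even a := by
        rintro ⟨r, rfl⟩
        exact hm ⟨(g : F) ^ r, by rw [ha, pow_add]⟩
      have h2 := hpow a a
      rw [← ha, h1, hodd _ (by rw [Nat.even_mul, not_or]; exact ⟨hao, hao⟩)] at h2
      exact h2.symm
  obtain ⟨a, rfl⟩ := hgen u hu
  obtain ⟨b, rfl⟩ := hgen w hw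
  rw [hpow, hone, one_pow]

/-- multiplicativity of the rank one torus -/
theorem ht_mul (h : Cov p) [Finite F] (hf : Frame v f) {i m j k : ι} (him : i ≠ m)
    (hij : i ≠ j) (hik : i ≠ k) (hmj : m ≠ j) (hmk : m ≠ k) (hjk : j ≠ k) {u w : F} (hu : u ≠ 0)
    (hw : w ≠ 0) : ht p v f i j (u * w) = ht p v f i j u * ht p v f i j w := by
  have h1 : Commute (ht p v f i k w) (ht p v f i j u) :=
    commutatorElement_eq_one_iff_commute.1
      (sym_trivial h hf him hik hij hmk hmj hjk.symm hw hu)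
  rw [mul_comm u w]
  exact ht_mul_of_comm h hf hij hik hjk hw h1

end Pool.Agent.H21.SLc
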