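import Pool.Agent.H21.SLc.Step

/-!
Central extensions of special linear groups over finite fields: generation by transvections.
-/

open Module LinearMap
open scoped commutatorElement

namespace Pool.Agent.H21.SLc

variable {F V Y : Type} [Field F] [AddCommGroup V] [Module F V] [Group Y]
  {p : Y →* Module.End F V}

theorem Q_det (h : Cov p) {W : Submodule F V} {g : Y} (hg : g ∈ Q p W) :
    LinearMap.det (p g) = 1 := by
  have := h.fin
  unfold Q at hg
  induction hg using Subgroup.closure_induction with
  | mem t ht =>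
    obtain ⟨φ, w, -, h2, rfl⟩ := ht
    rw [h.map_s h2, LinearMap.transvection.det, h2, add_zero]
  | one => rw [map_one, map_one]
  | mul a b _ _ ha hb => rw [map_mul, map_mul, ha, hb, one_mul]
  | inv a _ ha =>
    have h1 := congrArg LinearMap.det (p_inv_mul p a)
    rwa [map_mul, ha, mul_one, map_one] at h1

theorem Cov.move (h : Cov p) {W : Submodule F V} {v e : V} (he : e ∉ W) (hv : v ∉ W ⊔ F ∙ e) :
    ∃ t ∈ Q p W, p t v = e := by
  obtain ⟨φ0, h01, h02⟩ := exists_dual _ he
  obtain ⟨φ1, h11, h12⟩ := exists_dual _ hv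
  have h1e : φ1 e = 0 := h12 e (Submodule.mem_sup_right (Submodule.mem_span_singleton_self e))
  set φ := φ0 + (1 - φ0 v) • φ1 with hφ
  have e1 : φ e = 1 := by simp [hφ, h01, h1e]
  have e2 : φ v = 1 := by simp [hφ, h11]
  have e3 : φ (e - v) = 0 := by rw [map_sub, e1, e2, sub_self]
  refine ⟨s p φ (e - v), mem_Q (fun x hx => ?_) e3, ?_⟩
  · simp [hφ, h02 x hx, h12 x (Submodule.mem_sup_left hx)]
  · rw [h.map_s e3, tv_apply, e2, one_smul, add_sub_cancel]

theorem Cov.move' (h : Cov p) {W : Submodule F V} (hW : finrank F W + 2 ≤ finrank F V) {v e : V}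
    (he : e ∉ W) (hv : v ∉ W) : ∃ t ∈ Q p W, p t v = e := by
  have := h.fin
  by_cases hve : v ∈ W ⊔ F ∙ e
  · obtain ⟨u, hu⟩ : ∃ u, u ∉ W ⊔ F ∙ e := by
      by_contra hcon
      push Not at hcon
      have h1 : W ⊔ F ∙ e = ⊤ := by rw [eq_top_iff]; exact fun x _ => hcon x
      have h2 := fr_add W e
      rw [h1, finrank_top] at h2
      omega
    have huW : u ∉ W := fun hc => hu (Submodule.mem_sup_left hc)
    have hvu : v ∉ W ⊔ F ∙ u := by
      intro hc
      obtain ⟨w, hw, x, hx, hwx⟩ := Submodule.mem_sup.1 hc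
      obtain ⟨c, rfl⟩ := Submodule.mem_span_singleton.1 hx
      by_cases hc0 : c = 0
      · subst hc0
        rw [zero_smul, add_zero] at hwx
        exact hv (hwx ▸ hw)
      · apply hu
        have h3 : c • u = v - w := by rw [← hwx]; abel
        have h4 : c • u ∈ W ⊔ F ∙ e := by
          rw [h3]
          exact sub_mem hve (Submodule.mem_sup_left hw)
        have := Submodule.smul_mem _ c⁻¹ h4
        rwa [smul_smul, inv_mul_cancel₀ hc0, one_smul] at this
    obtain ⟨t1, ht1, h1⟩ := h.move huW hvu
    obtain ⟨t2, ht2, h2⟩ := h.move he hu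
    exact ⟨t2 * t1, mul_mem ht2 ht1, by rw [map_mul, Module.End.mul_apply, h1, h2]⟩
  · exact h.move he hve

/-- `p` maps the group of canonical lifts onto the special linear group. -/
theorem Cov.gen (h : Cov p) {g : Module.End F V} (hg : LinearMap.det g = 1) :
    ∃ y ∈ Q p (⊥ : Submodule F V), p y = g := by
  have := h.fin
  have hdim := h.dim
  have key : ∀ k : ℕ, k + 1 ≤ finrank F V → ∃ W : Submodule F V, finrank F W = k ∧
      ∃ y ∈ Q p (⊥ : Submodule F V), ∀ x ∈ W, p y (g x) = x := by
    intro k
    induction k with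
    | zero =>
      intro _
      refine ⟨⊥, finrank_bot F V, 1, one_mem _, fun x hx => ?_⟩
      rw [(Submodule.mem_bot F).1 hx, map_zero, map_zero]
    | succ k ih =>
      intro hk
      obtain ⟨W, hWk, y, hy, hyW⟩ := ih (by omega)
      obtain ⟨e, he⟩ : ∃ e, e ∉ W := by
        by_contra hcon
        push Not at hcon
        have h1 : W = ⊤ := by rw [eq_top_iff]; exact fun x _ => hcon x
        rw [h1, finrank_top] at hWk
        omega
      have hinj : Function.Injective (p y * g) := by
        rw [← LinearMap.ker_eq_bot]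
        have hd : LinearMap.det (p y * g) ≠ 0 := by
          rw [map_mul, Q_det h hy, hg, one_mul]; exact one_ne_zero
        exact (LinearMap.isUnit_iff_ker_eq_bot _).1
          ((LinearMap.isUnit_iff_isUnit_det _).2 (isUnit_iff_ne_zero.2 hd))
      have hve : p y (g e) ∉ W := by
        intro hc
        have h2 : (p y * g) (p y (g e)) = (p y * g) e := by
          rw [Module.End.mul_apply, hyW _ hc]; rfl
        have h3 := hinj h2
        rw [h3] at hc
        exact he hc
      obtain ⟨t, ht, hte⟩ := h.move' (by omega) he hve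
      refine ⟨W ⊔ F ∙ e, ?_, t * y, mul_mem (Q_mono bot_le ht) hy, ?_⟩
      · have h2 := fr_add W e
        have h3 : finrank F W < finrank F (W ⊔ F ∙ e : Submodule F V) := by
          apply Submodule.finrank_lt_finrank_of_lt
          refine lt_of_le_of_ne le_sup_left fun hc => he ?_
          rw [hc]
          exact Submodule.mem_sup_right (Submodule.mem_span_singleton_self e)
        omega
      · intro x hx
        obtain ⟨a, ha, b, hb, rfl⟩ := Submodule.mem_sup.1 hx
        obtain ⟨c, rfl⟩ := Submodule.mem_span_singleton.1 hb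
        rw [map_mul, Module.End.mul_apply, map_add, map_add, map_add, map_smul, map_smul, map_smul,
          hte, hyW a ha, Q_fix h ht a ha]
  obtain ⟨W, hWk, y, hy, hyW⟩ := key (finrank F V - 1) (by omega)
  obtain ⟨e, he⟩ : ∃ e, e ∉ W := by
    by_contra hcon
    push Not at hcon
    have h1 : W = ⊤ := by rw [eq_top_iff]; exact fun x _ => hcon x
    rw [h1, finrank_top] at hWk
    omega
  obtain ⟨f, hfe, hf⟩ := exists_dual _ he
  have hker : W = LinearMap.ker f := by
    apply Submodule.eq_of_le_of_finrank_le
    · exact fun x hx => LinearMap.mem_ker.2 (hf x hx)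
    · have h1 := LinearMap.finrank_range_add_finrank_ker f
      have h2 : LinearMap.range f = ⊤ := by
        rw [LinearMap.range_eq_top]
        intro c
        exact ⟨c • e, by rw [map_smul, hfe, smul_eq_mul, mul_one]⟩
      rw [h2, finrank_top, finrank_self] at h1
      omega
  set w := p y (g e) - e with hw
  have h1 : p y * g = tv f w := by
    ext x
    have h2 : x - f x • e ∈ W := by
      rw [hker, LinearMap.mem_ker, map_sub, map_smul, hfe, smul_eq_mul, mul_one, sub_self]
    have h3 := hyW _ h2
    rw [map_sub, map_sub, map_smul, map_smul] at h3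
    rw [Module.End.mul_apply, tv_apply, hw, smul_sub]
    rw [sub_eq_iff_eq_add] at h3
    rw [h3]
    abel
  have h2 : f w = 0 := by
    have h3 := congrArg LinearMap.det h1
    rw [map_mul, Q_det h hy, hg, LinearMap.transvection.det, one_mul] at h3
    exact (add_eq_left.1 h3.symm)
  refine ⟨y⁻¹ * s p f w, mul_mem (inv_mem hy) (mem_Q (fun x hx => ?_) h2), ?_⟩
  · rw [(Submodule.mem_bot F).1 hx, map_zero]
  · rw [map_mul, h.map_s h2, ← h1, ← mul_assoc, p_inv_mul, one_mul]

end Pool.Agent.H21.SLc
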