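import Pool.Agent.H21.SLc.Gen

/-!
Every perfect central extension of `PSL_n(F)`, `F` a finite field and `n ≥ 5`, is a quotient of
`SL_n(F)` (Schur, Steinberg).
-/

open Module LinearMap
open scoped commutatorElement

namespace Pool.Agent.H21.SLc

variable {F : Type} [Field F] {n : ℕ}

/-- action of `SL_n(F)` on column vectors, as a hom to endomorphisms -/
noncomputable def toE (F : Type) [Field F] (n : ℕ) :
    Matrix.SpecialLinearGroup (Fin n) F →* Module.End F (Fin n → F) :=
  (LinearEquiv.automorphismGroup.toLinearMapMonoidHom (R := F) (M := Fin n → F)).comp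
    Matrix.SpecialLinearGroup.toLin'

theorem toE_apply (A : Matrix.SpecialLinearGroup (Fin n) F) :
    toE F n A = Matrix.toLin' (A : Matrix (Fin n) (Fin n) F) := rfl

theorem toE_inj {A B : Matrix.SpecialLinearGroup (Fin n) F} (h : toE F n A = toE F n B) :
    A = B := by
  rw [toE_apply, toE_apply] at h
  exact Subtype.ext (Matrix.toLin'.injective h)

theorem toE_surj {g : Module.End F (Fin n → F)} (h : LinearMap.det g = 1) :
    ∃ A, toE F n A = g := by
  have h1 : (LinearMap.toMatrix' g).det = 1 := by rw [LinearMap.det_toMatrix', h]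
  obtain ⟨A, hA⟩ : ∃ A : Matrix.SpecialLinearGroup (Fin n) F,
      (A : Matrix (Fin n) (Fin n) F) = LinearMap.toMatrix' g := ⟨⟨_, h1⟩, rfl⟩
  refine ⟨A, ?_⟩
  rw [toE_apply, hA]
  exact Matrix.toLin'_toMatrix' g

/-- central extensions of `SL_n(F)` split -/
theorem split_SL [Finite F] (hn : 5 ≤ n) {Y : Type} [Group Y]
    (q : Y →* Matrix.SpecialLinearGroup (Fin n) F) (hq : Function.Surjective q)
    (hc : ∀ z, q z = 1 → ∀ x, Commute z x) :
    ∃ σ : Matrix.SpecialLinearGroup (Fin n) F →* Y, ∀ g, q (σ g) = g := by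
  set p : Y →* Module.End F (Fin n → F) := (toE F n).comp q with hp
  have hpq : ∀ y, p y = toE F n (q y) := fun _ => rfl
  have h : Cov p := by
    refine ⟨fun z hz x => hc z ?_ x, fun g hg => ?_, ?_⟩
    · apply toE_inj
      rw [← hpq, hz, map_one]
    · obtain ⟨A, hA⟩ := toE_surj hg
      obtain ⟨y, hy⟩ := hq A
      exact ⟨y, by rw [hpq, hy, hA]⟩
    · rw [finrank_fin_fun]; exact hn
  set N := Q p (⊥ : Submodule F (Fin n → F)) with hN
  have hbij : Function.Bijective (q.comp N.subtype) := by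
    constructor
    · rw [injective_iff_map_eq_one]
      rintro ⟨y, hy⟩ h1
      have h2 : p y = 1 := by
        rw [hpq]
        have h3 : q y = 1 := h1
        rw [h3, map_one]
      exact Subtype.ext (h.injective hy h2)
    · intro A
      have hd : LinearMap.det (toE F n A) = 1 := by
        rw [toE_apply, LinearMap.det_toLin']
        exact A.2
      obtain ⟨y, hy, hyA⟩ := h.gen hd
      refine ⟨⟨y, hy⟩, toE_inj ?_⟩
      rw [← hyA]
      rfl
  refine ⟨N.subtype.comp (MulEquiv.ofBijective _ hbij).symm.toMonoidHom, fun g => ?_⟩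
  exact (MulEquiv.ofBijective _ hbij).apply_symm_apply g

/-- **Schur covers of `PSL_n(F)`.** Let `n ≥ 5` and let `F` be a finite field.  Every perfect
central extension of a central quotient of `SL_n(F)` is a quotient of `SL_n(F)`. -/
theorem cover_quot [Finite F] (hn : 5 ≤ n) {X P : Type} [Group X] [Group P]
    (m : Matrix.SpecialLinearGroup (Fin n) F →* P) (f : X →* P) (hf : Function.Surjective f)
    (hm : ∀ x : P, ∃ g, m g = x)
    (hker : f.ker ≤ Subgroup.center X) (hperf : commutator X = ⊤) :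
    ∃ g : Matrix.SpecialLinearGroup (Fin n) F →* X, Function.Surjective g ∧
      ∀ A, f (g A) = m A := by
  set Y : Subgroup (X × Matrix.SpecialLinearGroup (Fin n) F) :=
    MonoidHom.eqLocus (f.comp (MonoidHom.fst _ _)) (m.comp (MonoidHom.snd _ _)) with hY
  have hmem : ∀ y : Y, f (y : X × Matrix.SpecialLinearGroup (Fin n) F).1
      = m (y : X × Matrix.SpecialLinearGroup (Fin n) F).2 := fun y => y.2
  set q : Y →* Matrix.SpecialLinearGroup (Fin n) F := (MonoidHom.snd _ _).comp Y.subtype with hq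
  obtain ⟨σ, hσ⟩ := split_SL hn q (by
    intro A
    obtain ⟨x, hx⟩ := hf (m A)
    exact ⟨⟨(x, A), hx⟩, rfl⟩) (by
    rintro ⟨⟨z, B⟩, hz⟩ hz1 ⟨⟨x, A⟩, hx⟩
    have hB : B = 1 := hz1
    subst hB
    have hz' : f z = m 1 := hz
    rw [map_one] at hz'
    have hzc := Subgroup.mem_center_iff.1 (hker (MonoidHom.mem_ker.2 hz')) x
    apply Subtype.ext
    apply Prod.ext
    · exact hzc.symm
    · change 1 * A = A * 1
      rw [one_mul, mul_one])
  set g : Matrix.SpecialLinearGroup (Fin n) F →* X :=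
    ((MonoidHom.fst _ _).comp Y.subtype).comp σ with hg
  have hfg : ∀ A, f (g A) = m A := by
    intro A
    have h1 := hmem (σ A)
    have h2 : ((σ A : Y) : X × Matrix.SpecialLinearGroup (Fin n) F).2 = A := hσ A
    rw [h2] at h1
    exact h1
  refine ⟨g, ?_, hfg⟩
  rw [← MonoidHom.range_eq_top, eq_top_iff, ← hperf, commutator_eq_closure, Subgroup.closure_le]
  rintro _ ⟨x, y, rfl⟩
  have key : ∀ x : X, ∃ A, f x = f (g A) := by
    intro x
    obtain ⟨A, hA⟩ := hm (f x)
    exact ⟨A, by rw [hfg, hA]⟩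
  obtain ⟨A, hA⟩ := key x
  obtain ⟨B, hB⟩ := key y
  have hc : ∀ z, f z = 1 → ∀ x, Commute z x := fun z hz x =>
    (Subgroup.mem_center_iff.1 (hker (MonoidHom.mem_ker.2 hz)) x).symm
  refine ⟨⁅A, B⁆, ?_⟩
  rw [map_commutatorElement]
  exact (comm_congr hc hA hB).symm

/-- **Perfect central extensions of `PSL_n(F)`**, `n ≥ 5`, are quotients of `SL_n(F)`. -/
theorem cover_PSL [Finite F] (hn : 5 ≤ n) {X : Type} [Group X]
    (f : X →* Matrix.ProjectiveSpecialLinearGroup (Fin n) F) (hf : Function.Surjective f)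
    (hker : f.ker ≤ Subgroup.center X) (hperf : commutator X = ⊤) :
    ∃ g : Matrix.SpecialLinearGroup (Fin n) F →* X, Function.Surjective g := by
  obtain ⟨g, hg, -⟩ := cover_quot hn
    (QuotientGroup.mk' (Subgroup.center (Matrix.SpecialLinearGroup (Fin n) F))) f hf
    (QuotientGroup.mk'_surjective _) hker hperf
  exact ⟨g, hg⟩

end Pool.Agent.H21.SLc
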