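import Pool.Agent.H21.SLc.Fin
import Pool.Agent.H21.SLc.Chain

/-!
Central extensions of special linear groups over finite fields: the rank one step.
-/

open Module LinearMap
open scoped commutatorElement

namespace Pool.Agent.H21.SLc

variable {F V Y ι : Type} [Field F] [AddCommGroup V] [Module F V] [Group Y]
  {p : Y →* Module.End F V} {v : ι → V} {f : ι → Dual F V}

/-- multiplicative rank one torus -/
def HtMul (p : Y →* Module.End F V) (v : ι → V) (f : ι → Dual F V) (i j : ι) : Prop :=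
  ∀ u w : F, u ≠ 0 → w ≠ 0 → ht p v f i j (u * w) = ht p v f i j u * ht p v f i j w

section rank

variable {i j : ι}

theorem ht_one (h : Cov p) (hf : Frame v f) (hij : i ≠ j) : ht p v f i j 1 = 1 := by
  unfold ht
  rw [← wt_inv h hf hij, mul_inv_cancel]

theorem ht_xr (h : Cov p) (hf : Frame v f) (hij : i ≠ j) {u : F} (hu : u ≠ 0) (a : F) :
    ht p v f i j u * xr p v f i j a * (ht p v f i j u)⁻¹ = xr p v f i j (u * a * u) := by
  rw [xr_conj h hf hij hij (c := u) (d := u⁻¹) (inv_ne_zero hu), inv_inv]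
  · rw [p_ht h hf hij hu, hf.self, hf.ne j i hij.symm]
    module
  · intro y
    rw [p_ht h hf hij hu]
    simp only [map_add, map_smul, hf.self, hf.ne j i hij.symm, smul_eq_mul]
    ring

theorem xr_ht (h : Cov p) (hf : Frame v f) (hij : i ≠ j) {u : F} (hu : u ≠ 0) (a : F) :
    xr p v f i j a * ht p v f i j u = ht p v f i j u * xr p v f i j (u⁻¹ * a * u⁻¹) := by
  have h1 := ht_xr h hf hij hu (u⁻¹ * a * u⁻¹)
  rw [show u * (u⁻¹ * a * u⁻¹) * u = a by field_simp] at h1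
  rw [← h1]
  group

theorem w_xl (h : Cov p) (hf : Frame v f) (hij : i ≠ j) (a : F) :
    wt p v f i j 1 * xr p v f i j a * (wt p v f i j 1)⁻¹ = xr p v f j i (-a) := by
  rw [wt_xr h hf hij one_ne_zero, inv_one, one_mul, mul_one]

theorem w_xr (h : Cov p) (hf : Frame v f) (hij : i ≠ j) (a : F) :
    wt p v f i j 1 * xr p v f j i a * (wt p v f i j 1)⁻¹ = xr p v f i j (-a) := by
  rw [wt_swap h hf hij one_ne_zero, wt_xr h hf hij.symm (by simp), inv_one, inv_neg, inv_one]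
  congr 1
  ring

theorem w_wt (h : Cov p) (hf : Frame v f) (hij : i ≠ j) {u : F} (hu : u ≠ 0) :
    wt p v f i j 1 * wt p v f i j u * (wt p v f i j 1)⁻¹ = wt p v f i j u⁻¹ := by
  rw [wt_swap h hf hij (inv_ne_zero hu), inv_inv]
  have e1 := w_xl h hf hij u
  have e2 := w_xr h hf hij (-u⁻¹)
  calc wt p v f i j 1 * wt p v f i j u * (wt p v f i j 1)⁻¹
      = (wt p v f i j 1 * xr p v f i j u * (wt p v f i j 1)⁻¹)
        * (wt p v f i j 1 * xr p v f j i (-u⁻¹) * (wt p v f i j 1)⁻¹)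
        * (wt p v f i j 1 * xr p v f i j u * (wt p v f i j 1)⁻¹) := by
        conv_lhs => rw [show wt p v f i j u
          = xr p v f i j u * xr p v f j i (-u⁻¹) * xr p v f i j u from rfl]
        group
    _ = _ := by
      rw [e1, e2]
      unfold wt
      rw [inv_neg]

theorem w_ht (h : Cov p) (hf : Frame v f) (hij : i ≠ j) {u : F} (hu : u ≠ 0) :
    wt p v f i j 1 * ht p v f i j u = ht p v f i j u⁻¹ * wt p v f i j 1 := by
  rw [← mul_inv_eq_iff_eq_mul]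
  have e1 := w_wt h hf hij hu
  have e2 := w_wt h hf hij (neg_ne_zero.2 (one_ne_zero (α := F)))
  rw [inv_neg, inv_one] at e2
  calc wt p v f i j 1 * ht p v f i j u * (wt p v f i j 1)⁻¹
      = (wt p v f i j 1 * wt p v f i j u * (wt p v f i j 1)⁻¹)
        * (wt p v f i j 1 * wt p v f i j (-1) * (wt p v f i j 1)⁻¹) := by
        unfold ht
        group
    _ = _ := by rw [e1, e2]; rfl

theorem w_sq (h : Cov p) (hf : Frame v f) (hij : i ≠ j) (hm : HtMul p v f i j) :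
    wt p v f i j 1 * wt p v f i j 1 = ht p v f i j (-1) := by
  have h1 := hm (-1) (-1) (neg_ne_zero.2 one_ne_zero) (neg_ne_zero.2 one_ne_zero)
  rw [neg_mul_neg, one_mul, ht_one h hf hij] at h1
  have h2 : wt p v f i j (-1) = (wt p v f i j 1)⁻¹ := (wt_inv h hf hij 1).symm
  have h3 : ht p v f i j (-1) * (wt p v f i j 1 * wt p v f i j 1) = 1 := by
    unfold ht
    rw [h2]
    group
  exact mul_left_cancel (a := ht p v f i j (-1)) (h3.trans h1)

theorem wt_eq (h : Cov p) (hf : Frame v f) (hij : i ≠ j) (u : F) :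
    wt p v f i j u = ht p v f i j u * wt p v f i j 1 := by
  unfold ht
  rw [← wt_inv h hf hij]
  group

/-- normal form in the rank one group -/
def Bf (p : Y →* Module.End F V) (v : ι → V) (f : ι → Dual F V) (i j : ι) (g : Y) : Prop :=
  (∃ u a, u ≠ 0 ∧ g = ht p v f i j u * xr p v f i j a) ∨
    ∃ b u a, u ≠ 0 ∧ g = xr p v f i j b * (ht p v f i j u * (wt p v f i j 1 * xr p v f i j a))

theorem Bf.xl (h : Cov p) (hf : Frame v f) (hij : i ≠ j) {g : Y} (hg : Bf p v f i j g) (c : F) :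
    Bf p v f i j (xr p v f i j c * g) := by
  rcases hg with ⟨u, a, hu, rfl⟩ | ⟨b, u, a, hu, rfl⟩
  · refine Or.inl ⟨u, u⁻¹ * c * u⁻¹ + a, hu, ?_⟩
    rw [← mul_assoc, xr_ht h hf hij hu, mul_assoc, xr_add h hf hij]
  · refine Or.inr ⟨c + b, u, a, hu, ?_⟩
    rw [xr_add h hf hij, mul_assoc]

theorem Bf.hl (h : Cov p) (hf : Frame v f) (hij : i ≠ j) (hm : HtMul p v f i j) {g : Y}
    (hg : Bf p v f i j g) {c : F} (hc : c ≠ 0) : Bf p v f i j (ht p v f i j c * g) := by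
  rcases hg with ⟨u, a, hu, rfl⟩ | ⟨b, u, a, hu, rfl⟩
  · refine Or.inl ⟨c * u, a, mul_ne_zero hc hu, ?_⟩
    rw [hm c u hc hu, mul_assoc]
  · refine Or.inr ⟨c * b * c, c * u, a, mul_ne_zero hc hu, ?_⟩
    rw [hm c u hc hu, ← ht_xr h hf hij hc b]
    group

theorem Bf.wl (h : Cov p) (hf : Frame v f) (hij : i ≠ j) (hm : HtMul p v f i j) {g : Y}
    (hg : Bf p v f i j g) : Bf p v f i j (wt p v f i j 1 * g) := by
  rcases hg with ⟨u, a, hu, rfl⟩ | ⟨b, u, a, hu, rfl⟩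
  · refine Or.inr ⟨0, u⁻¹, a, inv_ne_zero hu, ?_⟩
    rw [xr_zero h, one_mul, ← mul_assoc, w_ht h hf hij hu, mul_assoc]
  · have e0 : wt p v f i j 1 * (ht p v f i j u * (wt p v f i j 1 * xr p v f i j a))
        = ht p v f i j (-u⁻¹) * xr p v f i j a := by
      rw [← mul_assoc, w_ht h hf hij hu, mul_assoc, ← mul_assoc (wt p v f i j 1),
        w_sq h hf hij hm, ← mul_assoc, ← hm _ _ (inv_ne_zero hu) (neg_ne_zero.2 one_ne_zero),
        mul_neg, mul_one]
    by_cases hb : b = 0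
    · subst hb
      rw [xr_zero h, one_mul, e0]
      exact Or.inl ⟨_, _, neg_ne_zero.2 (inv_ne_zero hu), rfl⟩
    · have e1 := w_xl h hf hij b
      have e2 : xr p v f j i (-b)
          = xr p v f i j (-b⁻¹) * wt p v f i j b⁻¹ * xr p v f i j (-b⁻¹) := by
        unfold wt
        rw [inv_inv, xr_neg h hf hij]
        group
      rw [e2] at e1
      have e3 : wt p v f i j 1 * xr p v f i j b
          = xr p v f i j (-b⁻¹) * (ht p v f i j b⁻¹ * (wt p v f i j 1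
            * (xr p v f i j (-b⁻¹) * wt p v f i j 1))) := by
        rw [mul_inv_eq_iff_eq_mul, wt_eq h hf hij b⁻¹] at e1
        rw [e1]
        group
      have e4 : wt p v f i j 1 * (xr p v f i j b * (ht p v f i j u * (wt p v f i j 1
          * xr p v f i j a))) = xr p v f i j (-b⁻¹) * (ht p v f i j b⁻¹ * (wt p v f i j 1
            * (xr p v f i j (-b⁻¹) * (ht p v f i j (-u⁻¹) * xr p v f i j a)))) := by
        rw [← e0, ← mul_assoc (wt p v f i j 1) (xr p v f i j b), e3]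
        group
      rw [e4]
      have e5 : Bf p v f i j (wt p v f i j 1
          * (xr p v f i j (-b⁻¹) * (ht p v f i j (-u⁻¹) * xr p v f i j a))) := by
        have hu' : -u⁻¹ ≠ 0 := neg_ne_zero.2 (inv_ne_zero hu)
        refine Or.inr ⟨0, (-u⁻¹)⁻¹, (-u⁻¹)⁻¹ * (-b⁻¹) * (-u⁻¹)⁻¹ + a, inv_ne_zero hu', ?_⟩
        rw [xr_zero h, one_mul, ← mul_assoc (xr p v f i j (-b⁻¹)), xr_ht h hf hij hu', mul_assoc,
          ← xr_add h hf hij, ← mul_assoc, w_ht h hf hij hu', mul_assoc]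
      exact Bf.xl h hf hij (Bf.hl h hf hij hm e5 (inv_ne_zero hb)) _

theorem Bf.yl (h : Cov p) (hf : Frame v f) (hij : i ≠ j) (hm : HtMul p v f i j) {g : Y}
    (hg : Bf p v f i j g) (c : F) : Bf p v f i j (xr p v f j i c * g) := by
  have e1 := w_xl h hf hij (-c)
  rw [neg_neg] at e1
  have e2 : (wt p v f i j 1)⁻¹ = ht p v f i j (-1) * wt p v f i j 1 := by
    rw [← wt_eq h hf hij, wt_inv h hf hij]
  rw [← e1, e2, mul_assoc, mul_assoc, mul_assoc]
  exact Bf.wl h hf hij hm (Bf.xl h hf hij (Bf.hl h hf hij hm (Bf.wl h hf hij hm hg)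
    (neg_ne_zero.2 one_ne_zero)) _)

theorem Bf.of_mem (h : Cov p) (hf : Frame v f) (hij : i ≠ j) (hm : HtMul p v f i j) {g : Y}
    (hg : g ∈ Lg p v f i j) : Bf p v f i j g := by
  unfold Lg at hg
  induction hg using Subgroup.closure_induction_left with
  | one =>
    refine Or.inl ⟨1, 0, one_ne_zero, ?_⟩
    rw [xr_zero h, ht_one h hf hij, one_mul]
  | mul_left t ht g _ ih =>
    rcases ht with ⟨a, rfl⟩ | ⟨a, rfl⟩
    · exact Bf.xl h hf hij ih a
    · exact Bf.yl h hf hij hm ih a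
  | inv_mul_cancel t ht g _ ih =>
    rcases ht with ⟨a, rfl⟩ | ⟨a, rfl⟩
    · rw [← xr_neg h hf hij]
      exact Bf.xl h hf hij ih _
    · rw [← xr_neg h hf hij.symm]
      exact Bf.yl h hf hij hm ih _

end rank

/-- the abelian part -/
def IsA (p : Y →* Module.End F V) (W : Submodule F V) (f0 f1 : Dual F V) (g : Y) : Prop :=
  ∃ w1 ∈ W, ∃ w2 ∈ W, g = s p f0 w1 * s p f1 w2

theorem IsA.mul (h : Cov p) {W : Submodule F V} {f0 f1 : Dual F V} (h0 : ∀ x ∈ W, f0 x = 0)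
    (h1 : ∀ x ∈ W, f1 x = 0) {a b : Y} (ha : IsA p W f0 f1 a) (hb : IsA p W f0 f1 b) :
    IsA p W f0 f1 (a * b) := by
  obtain ⟨w1, hw1, w2, hw2, rfl⟩ := ha
  obtain ⟨w3, hw3, w4, hw4, rfl⟩ := hb
  refine ⟨w1 + w3, add_mem hw1 hw3, w2 + w4, add_mem hw2 hw4, ?_⟩
  rw [h.s_add_right (h0 _ hw1) (h0 _ hw3), h.s_add_right (h1 _ hw2) (h1 _ hw4)]
  have hc := (h.s_commute (h1 _ hw2) (h0 _ hw3) (h1 _ hw3) (h0 _ hw2)).eq
  calc s p f0 w1 * s p f1 w2 * (s p f0 w3 * s p f1 w4)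
      = s p f0 w1 * (s p f1 w2 * s p f0 w3) * s p f1 w4 := by group
    _ = s p f0 w1 * (s p f0 w3 * s p f1 w2) * s p f1 w4 := by rw [hc]
    _ = _ := by group

theorem IsA.of_fun (h : Cov p) {W : Submodule F V} {f0 f1 : Dual F V} (h0 : ∀ x ∈ W, f0 x = 0)
    (h1 : ∀ x ∈ W, f1 x = 0) {c d : F} {ψ : Dual F V} (hψ : ψ = c • f0 + d • f1) {w : V}
    (hw : w ∈ W) : IsA p W f0 f1 (s p ψ w) := by
  refine ⟨c • w, W.smul_mem _ hw, d • w, W.smul_mem _ hw, ?_⟩
  rw [hψ, h.s_add_left, h.s_smul (h0 _ hw), h.s_smul (h1 _ hw)]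
  · rw [LinearMap.smul_apply, h0 _ hw, smul_zero]
  · rw [LinearMap.smul_apply, h1 _ hw, smul_zero]

theorem IsA.conj (h : Cov p) {W : Submodule F V} {f0 f1 : Dual F V} (h0 : ∀ x ∈ W, f0 x = 0)
    (h1 : ∀ x ∈ W, f1 x = 0)
    (hdec : ∀ ψ : Dual F V, (∀ x ∈ W, ψ x = 0) → ∃ c d : F, ψ = c • f0 + d • f1)
    {a g : Y} (ha : IsA p W f0 f1 a) (hg : ∀ x ∈ W, p g x = x) :
    IsA p W f0 f1 (g * a * g⁻¹) := by
  obtain ⟨w1, hw1, w2, hw2, rfl⟩ := ha
  have key : ∀ (φ : Dual F V) (w : V), (∀ x ∈ W, φ x = 0) → w ∈ W →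
      IsA p W f0 f1 (g * s p φ w * g⁻¹) := by
    intro φ w hφ hw
    rw [h.s_conj g (hφ w hw), hg w hw]
    obtain ⟨c, d, hcd⟩ := hdec (φ ∘ₗ p g⁻¹) (fun x hx => by
      rw [LinearMap.comp_apply, fix_inv (hg x hx), hφ x hx])
    exact IsA.of_fun h h0 h1 hcd hw
  have e : g * (s p f0 w1 * s p f1 w2) * g⁻¹ = (g * s p f0 w1 * g⁻¹) * (g * s p f1 w2 * g⁻¹) := by
    group
  rw [e]
  exact IsA.mul h h0 h1 (key f0 w1 h0 hw1) (key f1 w2 h1 hw2)

end Pool.Agent.H21.SLc
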