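import Pool.Agent.H21.SLc.Main
import Pool.Agent.H98.GL.Main
import Pool.Agent.H42.Hb.Reduce

/-!
Perfect central extensions of `PSL_n(F)` are rigid for Heilbronn class functions of small degree.
-/

open Module
open scoped commutatorElement

namespace Pool.Agent.H21.SLc

open Pool.Agent.H7.HB Pool.Agent.H42.Hb

variable {F : Type} [Field F] {n : ℕ}

/-- characters of a perfect group are trivial -/
theorem char_perfect {X : Type} [Group X] (h : commutator X = ⊤) (ψ : X →* ℂˣ) (x : X) :
    ψ x = 1 := by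
  have h1 : x ∈ commutator X := by rw [h]; trivial
  exact MonoidHom.mem_ker.1 (Abelianization.commutator_subset_ker ψ h1)

/-- quotients of `SL_n(F)` which are perfect -/
theorem rigid_of_surj [Fintype F] (p : ℕ) [CharP F p] {r : ℕ} (hn : 3 ≤ n)
    (hr : r < n ∨ (p ≤ n ∧ r + 1 < Nat.card F ^ (n - 1))) {X : Type} [Group X] [Finite X]
    (g : Matrix.SpecialLinearGroup (Fin n) F →* X) (hg : Function.Surjective g)
    (hperf : commutator X = ⊤) : Rigid r X := by
  intro θ h d hdr hd x
  let j : Matrix.SpecialLinearGroup (Fin n) F →* GL (Fin n) F :=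
    Matrix.SpecialLinearGroup.toGL
  have hj : Function.Injective j := Matrix.SpecialLinearGroup.toGL_injective
  let e := MonoidHom.ofInjective hj
  obtain ⟨ψ, hψ⟩ := Pool.Agent.H98.GL.heil_linear p hn j.range (fun A => ⟨A, rfl⟩)
    (g.comp e.symm.toMonoidHom) (hg.comp e.symm.surjective) h d hd (by
      rcases hr with h1 | ⟨h1, h2⟩
      · exact Or.inl (by omega)
      · exact Or.inr ⟨h1, by omega⟩)
  rw [hψ x, hψ 1]
  refine Finset.sum_congr rfl fun i _ => ?_
  rw [char_perfect hperf, char_perfect hperf]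

/-- **Covers of `PSL_n(F)` are rigid.** -/
theorem psl_cover [Fintype F] (p : ℕ) [CharP F p] {r : ℕ} (hn : 5 ≤ n)
    (hr : r < n ∨ (p ≤ n ∧ r + 1 < Nat.card F ^ (n - 1))) {S : Type} [Group S]
    (e : S ≃* Matrix.ProjectiveSpecialLinearGroup (Fin n) F) : CoverRigid r S := by
  intro X _ _ f hf hker hX
  obtain ⟨g, hg⟩ := cover_PSL hn (e.toMonoidHom.comp f) (e.surjective.comp hf) (by
    intro x hx
    apply hker
    rw [MonoidHom.mem_ker] at hx ⊢
    apply e.injective
    rw [map_one]
    exact hx) hX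
  exact rigid_of_surj p (by omega) hr g hg hX

/-- **Covers of central quotients of `SL_n(F)` are rigid.** -/
theorem sl_quot_cover [Fintype F] (p : ℕ) [CharP F p] {r : ℕ} (hn : 5 ≤ n)
    (hr : r < n ∨ (p ≤ n ∧ r + 1 < Nat.card F ^ (n - 1))) {S : Type} [Group S]
    (m : Matrix.SpecialLinearGroup (Fin n) F →* S) (hm : Function.Surjective m) :
    CoverRigid r S := by
  intro X _ _ f hf hker hX
  obtain ⟨g, hg, -⟩ := cover_quot hn m f hf hm hker hX
  exact rigid_of_surj p (by omega) hr g hg hX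

section card

variable [Finite F]

theorem card_GL_le : Nat.card (GL (Fin n) F)
    ≤ Nat.card (Matrix.SpecialLinearGroup (Fin n) F) * Nat.card Fˣ := by
  have hfin : Finite (GL (Fin n) F) := inferInstance
  have hker : Nat.card (Matrix.GeneralLinearGroup.det (n := Fin n) (R := F)).ker
      ≤ Nat.card (Matrix.SpecialLinearGroup (Fin n) F) := by
    refine Nat.card_le_card_of_injective (fun A => ⟨((A : GL (Fin n) F) : Matrix _ _ F), ?_⟩) ?_
    · have h1 := MonoidHom.mem_ker.1 A.2
      exact congrArg Units.val h1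
    · intro A B hAB
      apply Subtype.ext
      apply Units.ext
      exact congrArg Subtype.val hAB
  have h1 := Subgroup.card_mul_index (Matrix.GeneralLinearGroup.det (n := Fin n) (R := F)).ker
  rw [← h1]
  refine Nat.mul_le_mul hker ?_
  rw [Subgroup.index_ker]
  exact Nat.card_le_card_of_injective _ Subtype.val_injective

theorem card_center_le (hn : 1 ≤ n) :
    Nat.card (Subgroup.center (Matrix.SpecialLinearGroup (Fin n) F)) ≤ Nat.card Fˣ := by
  have : NeZero n := ⟨by omega⟩
  have key : ∀ A : Subgroup.center (Matrix.SpecialLinearGroup (Fin n) F),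
      ∃ c : F, c ^ n = 1 ∧ Matrix.scalar (Fin n) c
        = ((A : Matrix.SpecialLinearGroup (Fin n) F) : Matrix (Fin n) (Fin n) F) := by
    intro A
    obtain ⟨c, hc1, hc2⟩ := Matrix.SpecialLinearGroup.mem_center_iff.1 A.2
    exact ⟨c, by simpa using hc1, hc2⟩
  choose c hc1 hc2 using key
  have hne : ∀ A, c A ≠ 0 := by
    intro A h0
    have := hc1 A
    rw [h0, zero_pow (by omega)] at this
    exact zero_ne_one this
  refine Nat.card_le_card_of_injective (fun A => Units.mk0 (c A) (hne A)) ?_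
  intro A B hAB
  have h1 : c A = c B := congrArg Units.val hAB
  apply Subtype.ext
  apply Subtype.ext
  rw [← hc2 A, ← hc2 B, h1]

theorem card_PSL_ge (hn : 2 ≤ n) :
    2 ^ (n * (n - 1)) ≤ Nat.card (Matrix.ProjectiveSpecialLinearGroup (Fin n) F) := by
  have : Fintype F := Fintype.ofFinite F
  set q := Fintype.card F with hq
  have hq2 : 2 ≤ q := Fintype.one_lt_card
  have hu : Nat.card Fˣ = q - 1 := by rw [Nat.card_units, Nat.card_eq_fintype_card]
  have h1 := card_GL_le (F := F) (n := n)
  have h2 := card_center_le (F := F) (n := n) (by omega)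
  have h3 := Subgroup.card_eq_card_quotient_mul_card_subgroup
    (Subgroup.center (Matrix.SpecialLinearGroup (Fin n) F))
  have h4 := Matrix.card_GL_field (𝔽 := F) n
  rw [hu] at h1 h2
  have h5 : (q ^ (n - 1) * (q - 1)) ^ n ≤ Nat.card (GL (Fin n) F) := by
    have h0 : (q ^ (n - 1) * (q - 1)) ^ n = ∏ _i : Fin n, q ^ (n - 1) * (q - 1) := by
      rw [Finset.prod_const, Finset.card_univ, Fintype.card_fin]
    rw [h4, h0]
    refine Finset.prod_le_prod (fun _ _ => Nat.zero_le _) (fun i _ => ?_)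
    rw [Nat.mul_sub, mul_one, ← pow_succ, Nat.sub_add_cancel (by omega)]
    apply Nat.sub_le_sub_left
    exact Nat.pow_le_pow_right (by omega) (by omega)
  set P := Nat.card (Matrix.ProjectiveSpecialLinearGroup (Fin n) F) with hP
  have h6 : Nat.card (Matrix.SpecialLinearGroup (Fin n) F) ≤ P * (q - 1) := by
    rw [h3]
    exact Nat.mul_le_mul_left _ h2
  have h7 : (q ^ (n - 1) * (q - 1)) ^ n ≤ P * (q - 1) ^ 2 := by
    refine h5.trans (h1.trans ?_)
    rw [pow_two, ← mul_assoc]
    exact Nat.mul_le_mul_right _ h6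
  have h8 : (q - 1) ^ n = (q - 1) ^ (n - 2) * (q - 1) ^ 2 := by
    rw [← pow_add]; congr 1; omega
  rw [mul_pow, h8, ← mul_assoc] at h7
  have h9 := Nat.le_of_mul_le_mul_right h7 (by have : 0 < q - 1 := by omega
                                               positivity)
  refine le_trans ?_ h9
  rw [← pow_mul]
  calc 2 ^ (n * (n - 1)) ≤ q ^ ((n - 1) * n) := by
        rw [mul_comm (n - 1) n]
        exact Nat.pow_le_pow_left hq2 _
    _ ≤ q ^ ((n - 1) * n) * (q - 1) ^ (n - 2) :=
        Nat.le_mul_of_pos_right _ (by have : 0 < q - 1 := by omega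
                                      positivity)

theorem psl_bound {r : ℕ} (hn : 5 ≤ n) (hr : r < n) {S : Type} [Group S]
    (e : S ≃* Matrix.ProjectiveSpecialLinearGroup (Fin n) F) :
    (r ^ 2) ^ (Nat.log 2 (r ^ 2)) < Nat.card S := by
  rw [Nat.card_congr e.toEquiv]
  refine lt_of_lt_of_le ?_ (card_PSL_ge (F := F) (n := n) (by omega))
  set L := Nat.log 2 (r ^ 2) with hL
  by_cases hL0 : L = 0
  · rw [hL0, pow_zero]
    exact Nat.one_lt_two_pow (by
      have : 0 < n * (n - 1) := Nat.mul_pos (by omega) (by omega)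
      omega)
  have h1 : r ^ 2 < 2 ^ (L + 1) := Nat.lt_pow_succ_log_self (by norm_num) _
  have h2 : r ^ 2 < 2 ^ n := by
    have h3 : r ^ 2 ≤ (n - 1) ^ 2 := Nat.pow_le_pow_left (by omega) 2
    refine lt_of_le_of_lt h3 ?_
    clear h1 hL0 hL h3 hr e
    induction n, hn using Nat.le_induction with
    | base => norm_num
    | succ m hm ih =>
      obtain ⟨k, rfl⟩ : ∃ k, m = k + 5 := ⟨m - 5, by omega⟩
      have ih' : (k + 4) ^ 2 < 2 ^ (k + 5) := ih
      have e1 : 2 ^ (k + 5 + 1) = 2 ^ (k + 5) * 2 := pow_succ _ _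
      have e2 : k + 5 + 1 - 1 = k + 5 := rfl
      rw [e1, e2]
      nlinarith
  have h4 : L + 1 ≤ n := by
    have : L < n := by
      rw [hL]
      exact Nat.log_lt_of_lt_pow' (by omega) h2
    omega
  calc (r ^ 2) ^ L < (2 ^ (L + 1)) ^ L := Nat.pow_lt_pow_left h1 hL0
    _ = 2 ^ ((L + 1) * L) := by rw [← pow_mul]
    _ ≤ 2 ^ (n * (n - 1)) := Nat.pow_le_pow_right (by norm_num)
        (Nat.mul_le_mul h4 (by omega))

/-- Both conditions of the reduction for `PSL_n(F)`. -/
theorem psl_good {r : ℕ} (hn : 5 ≤ n) (hr : r < n) {S : Type} [Group S]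
    (e : S ≃* Matrix.ProjectiveSpecialLinearGroup (Fin n) F) :
    (r ^ 2) ^ (Nat.log 2 (r ^ 2)) < Nat.card S ∧ CoverRigid r S := by
  have : Fintype F := Fintype.ofFinite F
  obtain ⟨p, hp⟩ := CharP.exists F
  exact ⟨psl_bound hn hr e, psl_cover p hn (Or.inl hr) e⟩

end card

end Pool.Agent.H21.SLc
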