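import Pool.Agent.H21.SLc.Rank

/-!
Central extensions of special linear groups over finite fields: stabilisers in codimension two and
one, injectivity.
-/

open Module LinearMap
open scoped commutatorElement

namespace Pool.Agent.H21.SLc

variable {F V Y : Type} [Field F] [AddCommGroup V] [Module F V] [Group Y]
  {p : Y →* Module.End F V}

/-- a frame adapted to a subspace of codimension two -/
theorem Cov.exists_frame (h : Cov p) {W : Submodule F V} (hW : finrank F W + 2 = finrank F V)
    {e : V} (he : e ∉ W) :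
    ∃ (v : Fin 4 → V) (f : Fin 4 → Dual F V), Frame v f ∧ v 0 = e ∧ (∀ x ∈ W, f 0 x = 0) ∧
      (∀ x ∈ W, f 1 x = 0) ∧ (∀ y, y - f 0 y • v 0 - f 1 y • v 1 ∈ W) := by
  have := h.fin
  have hdim := h.dim
  -- the second vector
  obtain ⟨b, hb⟩ : ∃ b, b ∉ W ⊔ F ∙ e := by
    by_contra hcon
    push Not at hcon
    have h1 : W ⊔ F ∙ e = ⊤ := by rw [eq_top_iff]; exact fun x _ => hcon x
    have h2 := fr_add W e
    rw [h1, finrank_top] at h2
    omega
  have he' : e ∉ W ⊔ F ∙ b := by
    intro hc
    obtain ⟨w, hw, x, hx, hwx⟩ := Submodule.mem_sup.1 hc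
    obtain ⟨c, rfl⟩ := Submodule.mem_span_singleton.1 hx
    by_cases hc0 : c = 0
    · subst hc0
      rw [zero_smul, add_zero] at hwx
      exact he (hwx ▸ hw)
    · apply hb
      have h3 : c • b = e - w := by rw [← hwx]; abel
      have h4 : c • b ∈ W ⊔ F ∙ e := by
        rw [h3]
        exact sub_mem (Submodule.mem_sup_right (Submodule.mem_span_singleton_self e))
          (Submodule.mem_sup_left hw)
      have := Submodule.smul_mem _ c⁻¹ h4
      rwa [smul_smul, inv_mul_cancel₀ hc0, one_smul] at this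
  obtain ⟨f0, hf0e, hf0⟩ := exists_dual _ he'
  obtain ⟨f1, hf1b, hf1⟩ := exists_dual _ hb
  have h0W : ∀ x ∈ W, f0 x = 0 := fun x hx => hf0 x (Submodule.mem_sup_left hx)
  have h1W : ∀ x ∈ W, f1 x = 0 := fun x hx => hf1 x (Submodule.mem_sup_left hx)
  have h0b : f0 b = 0 := hf0 b (Submodule.mem_sup_right (Submodule.mem_span_singleton_self b))
  have h1e : f1 e = 0 := hf1 e (Submodule.mem_sup_right (Submodule.mem_span_singleton_self e))
  have hker : W = LinearMap.ker (f0.prod f1) := by
    apply Submodule.eq_of_le_of_finrank_le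
    · intro x hx
      rw [LinearMap.mem_ker]
      exact Prod.ext (h0W x hx) (h1W x hx)
    · have h1 := LinearMap.finrank_range_add_finrank_ker (f0.prod f1)
      have h2 : LinearMap.range (f0.prod f1) = ⊤ := by
        rw [LinearMap.range_eq_top]
        rintro ⟨c, d⟩
        refine ⟨c • e + d • b, ?_⟩
        ext
        · simp [hf0e, h0b]
        · simp [hf1b, h1e]
      rw [h2, finrank_top, finrank_prod, finrank_self] at h1
      omega
  have hmem : ∀ y, y - f0 y • e - f1 y • b ∈ W := by
    intro y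
    rw [hker, LinearMap.mem_ker]
    ext
    · simp [hf0e, h0b]
    · simp [hf1b, h1e]
  -- two more vectors in `W`
  obtain ⟨c, hcW, hc0⟩ : ∃ c ∈ W, c ≠ 0 := by
    apply Submodule.exists_mem_ne_zero_of_ne_bot
    rintro rfl
    rw [finrank_bot] at hW
    omega
  obtain ⟨d, hdW, hd⟩ : ∃ d ∈ W, d ∉ F ∙ c := by
    by_contra hcon
    push Not at hcon
    have h1 := Submodule.finrank_mono (show W ≤ F ∙ c from hcon)
    have h2 := fr_one (F := F) c
    omega
  have hc : c ∉ F ∙ e ⊔ F ∙ b ⊔ F ∙ d := by
    intro hc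
    obtain ⟨x, hx, y, hy, hxy⟩ := Submodule.mem_sup.1 hc
    obtain ⟨r, rfl⟩ := Submodule.mem_span_singleton.1 hy
    obtain ⟨x', hx', y', hy', rfl⟩ := Submodule.mem_sup.1 hx
    obtain ⟨s, rfl⟩ := Submodule.mem_span_singleton.1 hy'
    obtain ⟨t, rfl⟩ := Submodule.mem_span_singleton.1 hx'
    have h1 := congrArg f0 hxy
    have h2 := congrArg f1 hxy
    simp only [map_add, map_smul, hf0e, h0b, h0W d hdW, h0W c hcW, smul_eq_mul, mul_one, mul_zero,
      add_zero] at h1
    simp only [map_add, map_smul, h1e, hf1b, h1W d hdW, h1W c hcW, smul_eq_mul, mul_one, mul_zero,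
      add_zero, zero_add] at h2
    subst h1; subst h2
    rw [zero_smul, zero_smul, zero_add, zero_add] at hxy
    by_cases hr : r = 0
    · subst hr
      rw [zero_smul] at hxy
      exact hc0 hxy.symm
    · apply hd
      rw [Submodule.mem_span_singleton]
      exact ⟨r⁻¹, by rw [← hxy, smul_smul, inv_mul_cancel₀ hr, one_smul]⟩
  have hd' : d ∉ F ∙ e ⊔ F ∙ b ⊔ F ∙ c := by
    intro hc
    obtain ⟨x, hx, y, hy, hxy⟩ := Submodule.mem_sup.1 hc
    obtain ⟨r, rfl⟩ := Submodule.mem_span_singleton.1 hy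
    obtain ⟨x', hx', y', hy', rfl⟩ := Submodule.mem_sup.1 hx
    obtain ⟨s, rfl⟩ := Submodule.mem_span_singleton.1 hy'
    obtain ⟨t, rfl⟩ := Submodule.mem_span_singleton.1 hx'
    have h1 := congrArg f0 hxy
    have h2 := congrArg f1 hxy
    simp only [map_add, map_smul, hf0e, h0b, h0W d hdW, h0W c hcW, smul_eq_mul, mul_one, mul_zero,
      add_zero] at h1
    simp only [map_add, map_smul, h1e, hf1b, h1W d hdW, h1W c hcW, smul_eq_mul, mul_one, mul_zero,
      add_zero, zero_add] at h2
    subst h1; subst h2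
    rw [zero_smul, zero_smul, zero_add, zero_add] at hxy
    exact hd (Submodule.mem_span_singleton.2 ⟨r, hxy⟩)
  obtain ⟨f2, hf2c, hf2⟩ := exists_dual _ hc
  obtain ⟨f3, hf3d, hf3⟩ := exists_dual _ hd'
  have hs1 : ∀ x : V, e ∈ F ∙ e ⊔ F ∙ b ⊔ F ∙ x := fun x =>
    Submodule.mem_sup_left mem_l
  have hs2 : ∀ x : V, b ∈ F ∙ e ⊔ F ∙ b ⊔ F ∙ x := fun x =>
    Submodule.mem_sup_left mem_r
  have hs3 : ∀ x : V, x ∈ F ∙ e ⊔ F ∙ b ⊔ F ∙ x := fun x =>
    Submodule.mem_sup_right (Submodule.mem_span_singleton_self x)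
  refine ⟨![e, b, c, d], ![f0, f1, f2, f3], ⟨?_, ?_⟩, rfl, h0W, h1W, hmem⟩
  · intro i
    fin_cases i
    · exact hf0e
    · exact hf1b
    · exact hf2c
    · exact hf3d
  · intro i j hij
    fin_cases i <;> fin_cases j
    · exact absurd rfl hij
    · exact h0b
    · exact h0W c hcW
    · exact h0W d hdW
    · exact h1e
    · exact absurd rfl hij
    · exact h1W c hcW
    · exact h1W d hdW
    · exact hf2 e (hs1 d)
    · exact hf2 b (hs2 d)
    · exact absurd rfl hij
    · exact hf2 d (hs3 d)
    · exact hf3 e (hs1 c)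
    · exact hf3 b (hs2 c)
    · exact hf3 c (hs3 c)
    · exact absurd rfl hij

theorem Cov.rank_one (h : Cov p) [Finite F] {W : Submodule F V}
    (hW : finrank F W + 2 = finrank F V) {e : V} (he : e ∉ W) {g : Y} (hg : g ∈ Q p W)
    (hge : p g e = e) : g ∈ Q p (W ⊔ F ∙ e) := by
  obtain ⟨v, f, hf, hv0, h0W, h1W, hmem⟩ := h.exists_frame hW he
  have h01 : (0 : Fin 4) ≠ 1 := by decide
  have hm : HtMul p v f 0 1 := fun u w hu hw =>
    ht_mul h hf (i := 0) (j := 1) (k := 2) (m := 3) (by decide) (by decide) (by decide) (by decide)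
      (by decide) (by decide) hu hw
  have hf0 : f 0 (v 0) = 1 := hf.self 0
  have hf1 : f 1 (v 1) = 1 := hf.self 1
  have hf01 : f 0 (v 1) = 0 := hf.ne 0 1 h01
  have hf10 : f 1 (v 0) = 0 := hf.ne 1 0 h01.symm
  have hdec : ∀ ψ : Dual F V, (∀ x ∈ W, ψ x = 0) → ∃ c d : F, ψ = c • f 0 + d • f 1 := by
    intro ψ hψ
    refine ⟨ψ (v 0), ψ (v 1), ?_⟩
    ext y
    have h1 := hψ _ (hmem y)
    rw [map_sub, map_sub, map_smul, map_smul, smul_eq_mul, smul_eq_mul] at h1
    rw [LinearMap.add_apply, LinearMap.smul_apply, LinearMap.smul_apply, smul_eq_mul, smul_eq_mul]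
    linear_combination h1
  have hLQ : Lg p v f 0 1 ≤ Q p W := by
    unfold Lg
    rw [Subgroup.closure_le]
    rintro y (⟨a, rfl⟩ | ⟨a, rfl⟩)
    · exact mem_Q h1W (hf.kill h01 a)
    · exact mem_Q h0W (hf.kill h01.symm a)
  -- transvections
  have htr : ∀ t, Tr p W t → ∃ a l, IsA p W (f 0) (f 1) a ∧ l ∈ Lg p v f 0 1 ∧ t = a * l := by
    rintro t ⟨φ, w, hφW, hφ, rfl⟩
    obtain ⟨A, B, hAB⟩ := hdec φ hφW
    set w0 := w - f 0 w • v 0 - f 1 w • v 1 with hw0
    have hw0W : w0 ∈ W := hmem w
    have hw : w = w0 + (f 0 w • v 0 + f 1 w • v 1) := by rw [hw0]; abel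
    have hφw' : φ (f 0 w • v 0 + f 1 w • v 1) = 0 := by
      have h1 := hφ
      rw [hw, map_add, hφW w0 hw0W, zero_add] at h1
      exact h1
    refine ⟨s p φ w0, s p φ (f 0 w • v 0 + f 1 w • v 1), IsA.of_fun h h0W h1W hAB hw0W, ?_, ?_⟩
    · set α := f 0 w
      set β := f 1 w
      have hrel : A * α + B * β = 0 := by
        rw [hAB] at hφw'
        simp only [LinearMap.add_apply, LinearMap.smul_apply, map_add, map_smul, hf0, hf1, hf01,
          hf10, smul_eq_mul] at hφw'
        linear_combination hφw'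
      by_cases hB : B = 0
      · subst hB
        rw [zero_mul, add_zero] at hrel
        rcases mul_eq_zero.1 hrel with hA | hα
        · subst hA
          rw [hAB, zero_smul, zero_smul, add_zero, h.s_zero_left]
          exact one_mem _
        · rw [hAB, hα, zero_smul, zero_smul, add_zero, zero_add,
            h.s_smul (by rw [map_smul, hf01, smul_zero]), smul_smul]
          exact xr_mem_r 0 1 (A * β)
      · have hg1 : p (xr p v f 1 0 (-(A / B))) = tv (f 0) ((-(A / B)) • v 1) := by
          unfold xr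
          exact h.map_s (hf.kill h01.symm _)
        have hβ : β = -(A / B) * α := by
          field_simp
          linear_combination hrel
        have e1 := h.s_conj' (xr p v f 1 0 (-(A / B))) (φ := f 1) (w := (B * α) • v 0)
          (v := (B * α) • v 0 + (B * β) • v 1) (ψ := f 1 + (A / B) • f 0) (hf.kill h01 _)
          (by
            rw [hg1, tv_apply, map_smul, hf0, smul_smul, smul_eq_mul, mul_one, hβ]
            congr 2
            ring)
          (by
            rw [hg1]
            ext y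
            simp only [LinearMap.comp_apply, tv_apply, LinearMap.add_apply, LinearMap.smul_apply,
              map_add, map_smul, hf1, hf01, smul_eq_mul]
            ring)
        have e2 : s p φ (α • v 0 + β • v 1)
            = s p (f 1 + (A / B) • f 0) ((B * α) • v 0 + (B * β) • v 1) := by
          have h3 : φ = B • (f 1 + (A / B) • f 0) := by
            rw [hAB, smul_add, smul_smul, mul_div_cancel₀ _ hB, add_comm]
          have h4 : (f 1 + (A / B) • f 0) (α • v 0 + β • v 1) = 0 := by
            simp only [LinearMap.add_apply, LinearMap.smul_apply, map_add, map_smul, hf0, hf1, hf01,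
              hf10, smul_eq_mul, hβ]
            ring
          rw [h3, h.s_smul h4, smul_add, smul_smul, smul_smul]
        rw [e2, ← e1]
        exact mul_mem (mul_mem (xr_mem_r 0 1 _) (xr_mem_l 0 1 _)) (inv_mem (xr_mem_r 0 1 _))
    · rw [← h.s_add_right (hφW w0 hw0W) hφw', ← hw]
  have hdecomp : ∃ a l, IsA p W (f 0) (f 1) a ∧ l ∈ Lg p v f 0 1 ∧ g = a * l := by
    have hmul : ∀ t g, Tr p W t → (∃ a l, IsA p W (f 0) (f 1) a ∧ l ∈ Lg p v f 0 1 ∧ g = a * l) →
        ∃ a l, IsA p W (f 0) (f 1) a ∧ l ∈ Lg p v f 0 1 ∧ t * g = a * l := by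
      rintro t g ht ⟨a, l, ha, hl, rfl⟩
      obtain ⟨a', l', ha', hl', rfl⟩ := htr t ht
      refine ⟨a' * (l' * a * l'⁻¹), l' * l, IsA.mul h h0W h1W ha'
        (IsA.conj h h0W h1W hdec ha (Q_fix h (hLQ hl'))), mul_mem hl' hl, by group⟩
    clear hge
    unfold Q at hg
    induction hg using Subgroup.closure_induction_left with
    | one => exact ⟨1, 1, ⟨0, zero_mem _, 0, zero_mem _, by
        rw [h.s_zero_right, h.s_zero_right, one_mul]⟩, one_mem _, by group⟩
    | mul_left t ht g _ ih => exact hmul t g ht ih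
    | inv_mul_cancel t ht g _ ih => exact hmul _ g (Tr.inv h ht) ih
  obtain ⟨a, l, ⟨w1, hw1, w2, hw2, rfl⟩, hl, rfl⟩ := hdecomp
  have hpa : ∀ y, p (s p (f 0) w1 * s p (f 1) w2) y = y + f 0 y • w1 + f 1 y • w2 := by
    intro y
    rw [map_mul, Module.End.mul_apply, h.map_s (h1W _ hw2), h.map_s (h0W _ hw1), tv_apply, tv_apply,
      map_add, map_smul, h0W _ hw2, smul_zero, add_zero]
    abel
  rw [map_mul, Module.End.mul_apply, hpa] at hge
  rcases Bf.of_mem h hf h01 hm hl with ⟨u, c, hu, rfl⟩ | ⟨b, u, c, hu, rfl⟩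
  · have e1 : p (ht p v f 0 1 u * xr p v f 0 1 c) e = u • e := by
      rw [map_mul, Module.End.mul_apply, p_xr h hf h01, p_ht h hf h01 hu, ← hv0, hf10, zero_smul,
        add_zero, hf0, hf10]
      module
    rw [e1, ← hv0, map_smul, map_smul, hf0, hf10, smul_zero, zero_smul, add_zero, smul_eq_mul,
      mul_one] at hge
    have hu1 : u = 1 := by
      have := congrArg (f 0) hge
      rwa [map_add, map_smul, map_smul, hf0, h0W _ hw1, smul_zero, add_zero, smul_eq_mul,
        mul_one] at this
    subst hu1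
    rw [one_smul, one_smul, add_eq_left] at hge
    subst hge
    rw [h.s_zero_right, one_mul, ht_one h hf h01, one_mul]
    have hk : ∀ x ∈ W ⊔ F ∙ e, f 1 x = 0 := killsup h1W (by rw [← hv0, hf10])
    exact mul_mem (mem_Q hk (h1W _ hw2)) (mem_Q hk (hf.kill h01 _))
  · exfalso
    have e1 : f 1 (p (xr p v f 0 1 b * (ht p v f 0 1 u * (wt p v f 0 1 1 * xr p v f 0 1 c))) e)
        = - u⁻¹ := by
      rw [map_mul, map_mul, map_mul, Module.End.mul_apply, Module.End.mul_apply,
        Module.End.mul_apply, p_xr h hf h01, p_xr h hf h01, p_ht h hf h01 hu,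
        p_wt h hf h01 one_ne_zero, ← hv0]
      simp only [map_add, map_sub, map_neg, map_smul, hf0, hf1, hf01, hf10, smul_eq_mul]
      ring
    have e2 := congrArg (f 1) hge
    rw [map_add, map_add, map_smul, map_smul, h1W _ hw1, h1W _ hw2, smul_zero, smul_zero, add_zero,
      add_zero, e1, ← hv0, hf10, neg_eq_zero] at e2
    exact inv_ne_zero hu e2

/-- codimension one -/
theorem Cov.last (h : Cov p) {W : Submodule F V} (hW : finrank F W + 1 = finrank F V) {g : Y}
    (hg : g ∈ Q p W) (h1 : p g = 1) : g = 1 := by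
  have := h.fin
  obtain ⟨e, he⟩ : ∃ e, e ∉ W := by
    by_contra hcon
    push Not at hcon
    have h1 : W = ⊤ := by rw [eq_top_iff]; exact fun x _ => hcon x
    rw [h1, finrank_top] at hW
    omega
  obtain ⟨f, hfe, hf⟩ := exists_dual _ he
  have hker : W = LinearMap.ker f := by
    apply Submodule.eq_of_le_of_finrank_le
    · exact fun x hx => LinearMap.mem_ker.2 (hf x hx)
    · have h1 := LinearMap.finrank_range_add_finrank_ker f
      have h2 : LinearMap.range f = ⊤ := by
        rw [LinearMap.range_eq_top]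
        intro c
        exact ⟨c • e, by rw [map_smul, hfe, smul_eq_mul, mul_one]⟩
      rw [h2, finrank_top, finrank_self] at h1
      omega
  have key : ∃ w ∈ W, g = s p f w := by
    clear h1
    unfold Q at hg
    induction hg using Subgroup.closure_induction with
    | mem t ht =>
      obtain ⟨φ, w, hφW, hφ, rfl⟩ := ht
      have h3 : φ = φ e • f := by
        ext y
        have h4 : y - f y • e ∈ W := by
          rw [hker, LinearMap.mem_ker, map_sub, map_smul, hfe, smul_eq_mul, mul_one, sub_self]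
        have h5 := hφW _ h4
        rw [map_sub, map_smul, smul_eq_mul] at h5
        rw [LinearMap.smul_apply, smul_eq_mul]
        linear_combination h5
      by_cases he0 : φ e = 0
      · refine ⟨0, zero_mem _, ?_⟩
        rw [h3, he0, zero_smul, h.s_zero_left, h.s_zero_right]
      · have h6 : f w = 0 := by
          rw [h3, LinearMap.smul_apply, smul_eq_mul] at hφ
          exact (mul_eq_zero.1 hφ).resolve_left he0
        refine ⟨φ e • w, W.smul_mem _ (by rw [hker]; exact LinearMap.mem_ker.2 h6), ?_⟩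
        conv_lhs => rw [h3]
        rw [h.s_smul h6]
    | one => exact ⟨0, zero_mem _, (h.s_zero_right f).symm⟩
    | mul a b _ _ ha hb =>
      obtain ⟨w, hw, rfl⟩ := ha
      obtain ⟨w', hw', rfl⟩ := hb
      exact ⟨w + w', add_mem hw hw', (h.s_add_right (hf w hw) (hf w' hw')).symm⟩
    | inv a _ ha =>
      obtain ⟨w, hw, rfl⟩ := ha
      exact ⟨-w, neg_mem hw, (h.s_neg_right (hf w hw)).symm⟩
  obtain ⟨w, hw, rfl⟩ := key
  rw [h.map_s (hf w hw)] at h1
  have h2 := congrArg (fun t : Module.End F V => t e) h1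
  change tv f w e = e at h2
  rw [tv_apply, hfe, one_smul, add_eq_left] at h2
  rw [h2, h.s_zero_right]

/-- **The canonical lifts generate a group on which `p` is injective.** -/
theorem Cov.injective (h : Cov p) [Finite F] {g : Y} (hg : g ∈ Q p (⊥ : Submodule F V))
    (h1 : p g = 1) : g = 1 := by
  have := h.fin
  have hdim := h.dim
  have key : ∀ k : ℕ, k + 1 ≤ finrank F V → ∃ W : Submodule F V, finrank F W = k ∧ g ∈ Q p W := by
    intro k
    induction k with
    | zero => intro _; exact ⟨⊥, finrank_bot F V, hg⟩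
    | succ k ih =>
      intro hk
      obtain ⟨W, hWk, hgW⟩ := ih (by omega)
      obtain ⟨e, he⟩ : ∃ e, e ∉ W := by
        by_contra hcon
        push Not at hcon
        have h1 : W = ⊤ := by rw [eq_top_iff]; exact fun x _ => hcon x
        rw [h1, finrank_top] at hWk
        omega
      refine ⟨W ⊔ F ∙ e, ?_, ?_⟩
      · have h2 := fr_add W e
        have h3 : finrank F W < finrank F (W ⊔ F ∙ e : Submodule F V) := by
          apply Submodule.finrank_lt_finrank_of_lt
          refine lt_of_le_of_ne le_sup_left fun hc => he ?_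
          rw [hc]
          exact Submodule.mem_sup_right (Submodule.mem_span_singleton_self e)
        omega
      · have hge : p g e = e := by rw [h1]; rfl
        by_cases hk3 : finrank F W + 3 ≤ finrank F V
        · exact h.stab hk3 hgW hge
        · exact h.rank_one (by omega) he hgW hge
  obtain ⟨W, hWk, hgW⟩ := key (finrank F V - 1) (by omega)
  exact h.last (by omega) hgW h1

end Pool.Agent.H21.SLc
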