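import Pool.Agent.H21.SLc.Base

/-!
Central extensions of special linear groups: root elements along a frame, tori, symbols.
-/

open Module LinearMap
open scoped commutatorElement

namespace Pool.Agent.H21.SLc

variable {F V Y ι : Type} [Field F] [AddCommGroup V] [Module F V] [Group Y]
  {p : Y →* Module.End F V}

/-- independent vectors with dual functionals -/
structure Frame (v : ι → V) (f : ι → Dual F V) : Prop where
  self : ∀ i, f i (v i) = 1
  ne : ∀ i j, i ≠ j → f i (v j) = 0

/-- root elements -/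
noncomputable def xr (p : Y →* Module.End F V) (v : ι → V) (f : ι → Dual F V) (i j : ι) (a : F) : Y :=
  s p (f j) (a • v i)

/-- reflections -/
noncomputable def wt (p : Y →* Module.End F V) (v : ι → V) (f : ι → Dual F V) (i j : ι) (u : F) : Y :=
  xr p v f i j u * xr p v f j i (-u⁻¹) * xr p v f i j u

/-- torus elements -/
noncomputable def ht (p : Y →* Module.End F V) (v : ι → V) (f : ι → Dual F V) (i j : ι) (u : F) : Y :=
  wt p v f i j u * wt p v f i j (-1)

variable {v : ι → V} {f : ι → Dual F V}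

theorem Frame.kill (hf : Frame v f) {i j : ι} (hij : i ≠ j) (a : F) : f j (a • v i) = 0 := by
  rw [map_smul, hf.ne j i hij.symm, smul_zero]

theorem p_xr (h : Cov p) (hf : Frame v f) {i j : ι} (hij : i ≠ j) (a : F) (y : V) :
    p (xr p v f i j a) y = y + f j y • a • v i := by
  unfold xr
  rw [h.map_s (hf.kill hij a), tv_apply]

theorem xr_add (h : Cov p) (hf : Frame v f) {i j : ι} (hij : i ≠ j) (a b : F) :
    xr p v f i j (a + b) = xr p v f i j a * xr p v f i j b := by
  unfold xr
  rw [← h.s_add_right (hf.kill hij a) (hf.kill hij b), add_smul]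

theorem xr_zero (h : Cov p) (i j : ι) : xr p v f i j 0 = 1 := by
  unfold xr
  rw [zero_smul, h.s_zero_right]

theorem xr_neg (h : Cov p) (hf : Frame v f) {i j : ι} (hij : i ≠ j) (a : F) :
    xr p v f i j (-a) = (xr p v f i j a)⁻¹ := by
  unfold xr
  rw [neg_smul, h.s_neg_right (hf.kill hij a)]

theorem xr_comm (h : Cov p) (hf : Frame v f) {i j k l : ι} (hij : i ≠ j) (hkl : k ≠ l)
    (hjk : j ≠ k) (hil : i ≠ l) (a b : F) : Commute (xr p v f i j a) (xr p v f k l b) := by
  unfold xr
  exact h.s_commute (hf.kill hij a) (hf.kill hkl b) (hf.kill hjk.symm b) (hf.kill hil a)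

theorem xr_conj (h : Cov p) (hf : Frame v f) {i j i' j' : ι} (hij : i ≠ j)
    (hij' : i' ≠ j') {g : Y} {c d : F} (hd : d ≠ 0) (hv : p g (v i) = c • v i')
    (hφ : ∀ y, f j' (p g y) = d * f j y) (a : F) :
    g * xr p v f i j a * g⁻¹ = xr p v f i' j' (c * a * d⁻¹) := by
  unfold xr
  rw [h.s_conj' g (hf.kill hij a) (v := (c * a) • v i') (ψ := d⁻¹ • f j'), h.s_smul, smul_smul,
    mul_comm d⁻¹]
  · exact hf.kill hij' _
  · rw [map_smul, hv, smul_smul, mul_comm]
  · ext y
    rw [LinearMap.comp_apply, LinearMap.smul_apply, hφ, smul_eq_mul, inv_mul_cancel_left₀ hd]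

theorem p_wt (h : Cov p) (hf : Frame v f) {i j : ι} (hij : i ≠ j) {u : F} (hu : u ≠ 0) (y : V) :
    p (wt p v f i j u) y = y + f i y • (- v i - u⁻¹ • v j) + f j y • (u • v i - v j) := by
  unfold wt
  rw [map_mul, map_mul, Module.End.mul_apply, Module.End.mul_apply, p_xr h hf hij,
    p_xr h hf hij.symm, p_xr h hf hij]
  simp only [map_add, map_smul, hf.self, hf.ne i j hij, hf.ne j i hij.symm, smul_eq_mul,
    mul_zero, add_zero, mul_one, zero_smul, smul_zero]
  match_scalars <;> field_simp <;> ring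

theorem p_ht (h : Cov p) (hf : Frame v f) {i j : ι} (hij : i ≠ j) {u : F} (hu : u ≠ 0) (y : V) :
    p (ht p v f i j u) y = y + f i y • ((u - 1) • v i) + f j y • ((u⁻¹ - 1) • v j) := by
  unfold ht
  rw [map_mul, Module.End.mul_apply, p_wt h hf hij (neg_ne_zero.2 one_ne_zero), p_wt h hf hij hu]
  simp only [map_add, map_sub, map_neg, map_smul, hf.self, hf.ne i j hij, hf.ne j i hij.symm,
    smul_eq_mul, mul_zero, add_zero, mul_one, zero_smul, smul_zero]
  match_scalars <;> field_simp <;> ring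

theorem wt_inv (h : Cov p) (hf : Frame v f) {i j : ι} (hij : i ≠ j) (u : F) :
    (wt p v f i j u)⁻¹ = wt p v f i j (-u) := by
  unfold wt
  rw [mul_inv_rev, mul_inv_rev, ← xr_neg h hf hij, ← xr_neg h hf hij.symm, inv_neg, mul_assoc]

theorem wt_xr (h : Cov p) (hf : Frame v f) {i j : ι} (hij : i ≠ j) {u : F} (hu : u ≠ 0) (a : F) :
    wt p v f i j u * xr p v f i j a * (wt p v f i j u)⁻¹ = xr p v f j i (-(u⁻¹ * a * u⁻¹)) := by
  rw [xr_conj h hf hij hij.symm (c := -u⁻¹) (d := u) hu]
  · rw [neg_mul, neg_mul]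
  · rw [p_wt h hf hij hu, hf.self, hf.ne j i hij.symm]
    module
  · intro y
    rw [p_wt h hf hij hu]
    simp only [map_add, map_sub, map_neg, map_smul, hf.self, hf.ne i j hij, smul_eq_mul]
    ring

theorem wt_swap (h : Cov p) (hf : Frame v f) {i j : ι} (hij : i ≠ j) {u : F} (hu : u ≠ 0) :
    wt p v f i j u = wt p v f j i (-u⁻¹) := by
  have h1 := wt_xr h hf hij hu u
  rw [mul_inv_eq_iff_eq_mul, inv_mul_cancel₀ hu, one_mul] at h1
  have h2 : wt p v f i j u * xr p v f i j u
      = xr p v f j i (-u⁻¹) * xr p v f i j u * xr p v f j i (-u⁻¹) * xr p v f i j u := by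
    rw [h1]
    unfold wt
    group
  have h3 := mul_right_cancel h2
  rw [h3]
  unfold wt
  rw [inv_neg, neg_neg, inv_inv]

/-- torus elements act on root elements -/
theorem ht_conj_l (h : Cov p) (hf : Frame v f) {i j k : ι} (hij : i ≠ j) (hik : i ≠ k)
    (hjk : j ≠ k) {u : F} (hu : u ≠ 0) (a : F) :
    ht p v f i k u * xr p v f i j a * (ht p v f i k u)⁻¹ = xr p v f i j (u * a) := by
  rw [xr_conj h hf hij hij (c := u) (d := 1) one_ne_zero, inv_one, mul_one]
  · rw [p_ht h hf hik hu, hf.self, hf.ne k i hik.symm]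
    module
  · intro y
    rw [p_ht h hf hik hu]
    simp only [map_add, map_smul, hf.ne j i hij.symm, hf.ne j k hjk, smul_eq_mul]
    ring

theorem ht_conj_r (h : Cov p) (hf : Frame v f) {i j k : ι} (hij : i ≠ j) (hik : i ≠ k)
    (hjk : j ≠ k) {u : F} (hu : u ≠ 0) (a : F) :
    ht p v f i k u * xr p v f j i a * (ht p v f i k u)⁻¹ = xr p v f j i (a * u⁻¹) := by
  rw [xr_conj h hf hij.symm hij.symm (c := 1) (d := u) hu, one_mul]
  · rw [p_ht h hf hik hu, hf.ne i j hij, hf.ne k j hjk.symm]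
    module
  · intro y
    rw [p_ht h hf hik hu]
    simp only [map_add, map_smul, hf.self, hf.ne i k hik, smul_eq_mul]
    ring

theorem ht_conj_wt (h : Cov p) (hf : Frame v f) {i j k : ι} (hij : i ≠ j) (hik : i ≠ k)
    (hjk : j ≠ k) {u : F} (hu : u ≠ 0) (a : F) :
    ht p v f i k u * wt p v f i j a * (ht p v f i k u)⁻¹ = wt p v f i j (u * a) := by
  have e1 := ht_conj_l h hf hij hik hjk hu a
  have e2 := ht_conj_r h hf hij hik hjk hu (-a⁻¹)
  unfold wt
  calc ht p v f i k u * (xr p v f i j a * xr p v f j i (-a⁻¹) * xr p v f i j a)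
        * (ht p v f i k u)⁻¹
      = (ht p v f i k u * xr p v f i j a * (ht p v f i k u)⁻¹)
        * (ht p v f i k u * xr p v f j i (-a⁻¹) * (ht p v f i k u)⁻¹)
        * (ht p v f i k u * xr p v f i j a * (ht p v f i k u)⁻¹) := by group
    _ = _ := by rw [e1, e2, mul_inv, neg_mul, mul_comm a⁻¹]

/-- commuting tori give multiplicativity -/
theorem ht_mul_of_comm (h : Cov p) (hf : Frame v f) {i j k : ι} (hij : i ≠ j) (hik : i ≠ k)
    (hjk : j ≠ k) {u w : F} (hu : u ≠ 0)
    (hc : Commute (ht p v f i k u) (ht p v f i j w)) :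
    ht p v f i j (u * w) = ht p v f i j w * ht p v f i j u := by
  have h1 : ht p v f i k u * ht p v f i j w * (ht p v f i k u)⁻¹
      = wt p v f i j (u * w) * wt p v f i j (u * (-1)) := by
    rw [← ht_conj_wt h hf hij hik hjk hu w, ← ht_conj_wt h hf hij hik hjk hu (-1)]
    unfold ht
    group
  rw [hc.eq, mul_inv_cancel_right] at h1
  have h2 : wt p v f i j (u * w) = ht p v f i j w * wt p v f i j u := by
    rw [h1, mul_neg, mul_one, ← wt_inv h hf hij, inv_mul_cancel_right]
  unfold ht at h2 ⊢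
  rw [h2]
  simp only [mul_assoc]

/-! ### symbols -/

theorem ht_image_comm (h : Cov p) (hf : Frame v f) {i j k : ι} (hij : i ≠ j) (hik : i ≠ k)
    (hjk : j ≠ k) {u w : F} (hu : u ≠ 0) (hw : w ≠ 0) :
    Commute (p (ht p v f i j u)) (p (ht p v f i k w)) := by
  ext y
  simp only [Module.End.mul_apply, p_ht h hf hij hu, p_ht h hf hik hw, map_add, map_smul, hf.self,
    hf.ne i j hij, hf.ne i k hik, hf.ne j i hij.symm, hf.ne j k hjk, hf.ne k i hik.symm,
    hf.ne k j hjk.symm, smul_eq_mul]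
  module

/-- the symbol -/
theorem sym_central (h : Cov p) (hf : Frame v f) {i j k : ι} (hij : i ≠ j) (hik : i ≠ k)
    (hjk : j ≠ k) {u w : F} (hu : u ≠ 0) (hw : w ≠ 0) (g : Y) :
    Commute ⁅ht p v f i j u, ht p v f i k w⁆ g :=
  comm_central h.ker (ht_image_comm h hf hij hik hjk hu hw) g

theorem p_ht_mul (h : Cov p) (hf : Frame v f) {i j : ι} (hij : i ≠ j) {u w : F} (hu : u ≠ 0)
    (hw : w ≠ 0) : p (ht p v f i j (u * w)) = p (ht p v f i j u * ht p v f i j w) := by
  ext y
  rw [map_mul, Module.End.mul_apply, p_ht h hf hij (mul_ne_zero hu hw), p_ht h hf hij hw,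
    p_ht h hf hij hu]
  simp only [map_add, map_smul, hf.self, hf.ne i j hij, hf.ne j i hij.symm, smul_eq_mul, mul_inv]
  module

theorem sym_mul_left (h : Cov p) (hf : Frame v f) {i j k : ι} (hij : i ≠ j) (hik : i ≠ k)
    (hjk : j ≠ k) {u u' w : F} (hu : u ≠ 0) (hu' : u' ≠ 0) (hw : w ≠ 0) :
    ⁅ht p v f i j (u * u'), ht p v f i k w⁆
      = ⁅ht p v f i j u, ht p v f i k w⁆ * ⁅ht p v f i j u', ht p v f i k w⁆ := by
  rw [comm_congr h.ker (p_ht_mul h hf hij hu hu') rfl, comm_mul_left,
    conj_of_commute (sym_central h hf hij hik hjk hu' hw _).symm,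
    (sym_central h hf hij hik hjk hu hw _).eq]

theorem sym_mul_right (h : Cov p) (hf : Frame v f) {i j k : ι} (hij : i ≠ j) (hik : i ≠ k)
    (hjk : j ≠ k) {u w w' : F} (hu : u ≠ 0) (hw : w ≠ 0) (hw' : w' ≠ 0) :
    ⁅ht p v f i j u, ht p v f i k (w * w')⁆
      = ⁅ht p v f i j u, ht p v f i k w⁆ * ⁅ht p v f i j u, ht p v f i k w'⁆ := by
  rw [comm_congr h.ker rfl (p_ht_mul h hf hik hw hw'), comm_mul_right,
    conj_of_commute (sym_central h hf hij hik hjk hu hw' _).symm]

theorem sym_skew (h : Cov p) (hf : Frame v f) {i j k : ι} (hij : i ≠ j) (hik : i ≠ k)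
    (hjk : j ≠ k) {u w : F} (hu : u ≠ 0) (hw : w ≠ 0) :
    ⁅ht p v f i j u, ht p v f i k w⁆ * ⁅ht p v f i j w, ht p v f i k u⁆ = 1 := by
  set g := wt p v f j k 1 with hg
  have key : ∀ {c : F}, c ≠ 0 → p (g * ht p v f i j c * g⁻¹) = p (ht p v f i k c) := by
    intro c hc
    have h1 : p g * p (ht p v f i j c) = p (ht p v f i k c) * p g := by
      ext y
      rw [Module.End.mul_apply, Module.End.mul_apply, p_ht h hf hij hc, hg,
        p_wt h hf hjk one_ne_zero, p_wt h hf hjk one_ne_zero, p_ht h hf hik hc]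
      simp only [map_add, map_sub, map_neg, map_smul, hf.self, hf.ne i j hij, hf.ne i k hik,
        hf.ne j i hij.symm, hf.ne j k hjk, hf.ne k i hik.symm, hf.ne k j hjk.symm, smul_eq_mul,
        inv_one]
      module
    rw [map_mul, map_mul, h1, mul_assoc, p_mul_inv, mul_one]
  have key' : ∀ {c : F}, c ≠ 0 → p (g * ht p v f i k c * g⁻¹) = p (ht p v f i j c) := by
    intro c hc
    have h1 : p g * p (ht p v f i k c) = p (ht p v f i j c) * p g := by
      ext y
      rw [Module.End.mul_apply, Module.End.mul_apply, p_ht h hf hik hc, hg,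
        p_wt h hf hjk one_ne_zero, p_wt h hf hjk one_ne_zero, p_ht h hf hij hc]
      simp only [map_add, map_sub, map_neg, map_smul, hf.self, hf.ne i j hij, hf.ne i k hik,
        hf.ne j i hij.symm, hf.ne j k hjk, hf.ne k i hik.symm, hf.ne k j hjk.symm, smul_eq_mul,
        inv_one]
      module
    rw [map_mul, map_mul, h1, mul_assoc, p_mul_inv, mul_one]
  have h2 : g * ⁅ht p v f i j u, ht p v f i k w⁆ * g⁻¹ = ⁅ht p v f i j u, ht p v f i k w⁆ :=
    conj_of_commute (sym_central h hf hij hik hjk hu hw g).symm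
  rw [← h2, conj_comm, comm_congr h.ker (key hu) (key' hw), ← commutatorElement_inv,
    inv_mul_cancel]

/-- the group generated by a rank one pair -/
def Lg (p : Y →* Module.End F V) (v : ι → V) (f : ι → Dual F V) (i j : ι) : Subgroup Y :=
  Subgroup.closure ({y | ∃ a, y = xr p v f i j a} ∪ {y | ∃ a, y = xr p v f j i a})

theorem xr_mem_l (i j : ι) (a : F) : xr p v f i j a ∈ Lg p v f i j :=
  Subgroup.subset_closure (Or.inl ⟨a, rfl⟩)

theorem xr_mem_r (i j : ι) (a : F) : xr p v f j i a ∈ Lg p v f i j :=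
  Subgroup.subset_closure (Or.inr ⟨a, rfl⟩)

theorem wt_mem (i j : ι) (a : F) : wt p v f i j a ∈ Lg p v f i j :=
  mul_mem (mul_mem (xr_mem_l i j _) (xr_mem_r i j _)) (xr_mem_l i j _)

theorem ht_mem (i j : ι) (a : F) : ht p v f i j a ∈ Lg p v f i j :=
  mul_mem (wt_mem i j _) (wt_mem i j _)

theorem commute_Lg {g : Y} {i j : ι} (h1 : ∀ a, Commute g (xr p v f i j a))
    (h2 : ∀ a, Commute g (xr p v f j i a)) {y : Y} (hy : y ∈ Lg p v f i j) : Commute g y := by
  unfold Lg at hy
  induction hy using Subgroup.closure_induction with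
  | mem x hx =>
    rcases hx with ⟨a, rfl⟩ | ⟨a, rfl⟩
    · exact h1 a
    · exact h2 a
  | one => exact Commute.one_right g
  | mul a b _ _ ha hb => exact ha.mul_right hb
  | inv a _ ha => exact ha.inv_right

theorem Lg_comm (h : Cov p) (hf : Frame v f) {i j k l : ι} (hij : i ≠ j) (hkl : k ≠ l)
    (hjk : j ≠ k) (hil : i ≠ l) (hik : i ≠ k) (hjl : j ≠ l) {a b : Y}
    (ha : a ∈ Lg p v f i j) (hb : b ∈ Lg p v f k l) : Commute a b := by
  refine commute_Lg (fun c => ?_) (fun c => ?_) hb
  · refine (commute_Lg (fun d => ?_) (fun d => ?_) ha).symm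
    · exact xr_comm h hf hkl hij hil.symm hjk.symm _ _
    · exact xr_comm h hf hkl hij.symm hjl.symm hik.symm _ _
  · refine (commute_Lg (fun d => ?_) (fun d => ?_) ha).symm
    · exact xr_comm h hf hkl.symm hij hik.symm hjl.symm _ _
    · exact xr_comm h hf hkl.symm hij.symm hjk.symm hil.symm _ _

theorem comm_pow {x y : Y} (hc : ∀ g, Commute ⁅x, y⁆ g) (n : ℕ) : ⁅x ^ n, y⁆ = ⁅x, y⁆ ^ n := by
  induction n with
  | zero => rw [pow_zero, pow_zero, commutatorElement_one_left]
  | succ n ih =>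
    rw [pow_succ, comm_mul_left, conj_of_commute (hc _).symm, ih, pow_succ']

theorem ht_conj_l_inv (h : Cov p) (hf : Frame v f) {i j k : ι} (hij : i ≠ j) (hik : i ≠ k)
    (hjk : j ≠ k) {u : F} (hu : u ≠ 0) (a : F) :
    (ht p v f i k u)⁻¹ * xr p v f i j a * ht p v f i k u = xr p v f i j (u⁻¹ * a) := by
  have h1 := ht_conj_l h hf hij hik hjk hu (u⁻¹ * a)
  rw [mul_inv_cancel_left₀ hu] at h1
  rw [← h1]
  group

theorem ht_conj_r_inv (h : Cov p) (hf : Frame v f) {i j k : ι} (hij : i ≠ j) (hik : i ≠ k)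
    (hjk : j ≠ k) {u : F} (hu : u ≠ 0) (a : F) :
    (ht p v f i k u)⁻¹ * xr p v f j i a * ht p v f i k u = xr p v f j i (a * u) := by
  have h1 := ht_conj_r h hf hij hik hjk hu (a * u)
  rw [mul_inv_cancel_right₀ hu] at h1
  rw [← h1]
  group

theorem ht_quot_commute (h : Cov p) (hf : Frame v f) {i m j k : ι} (him : i ≠ m) (hij : i ≠ j)
    (hik : i ≠ k) (hmj : m ≠ j) (hmk : m ≠ k) {N : F} (hN : N ≠ 0) {M : Y}
    (hM : M ∈ Lg p v f i m) : Commute (ht p v f i k N * (ht p v f i j N)⁻¹) M := by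
  refine commute_Lg (fun a => ?_) (fun a => ?_) hM
  · have e1 := ht_conj_l_inv h hf him hij hmj hN a
    have e2 := ht_conj_l_inv h hf him hik hmk hN a
    rw [← e2] at e1
    change ht p v f i k N * (ht p v f i j N)⁻¹ * xr p v f i m a
      = xr p v f i m a * (ht p v f i k N * (ht p v f i j N)⁻¹)
    calc ht p v f i k N * (ht p v f i j N)⁻¹ * xr p v f i m a
        = ht p v f i k N * ((ht p v f i j N)⁻¹ * xr p v f i m a * ht p v f i j N)
          * (ht p v f i j N)⁻¹ := by group
      _ = _ := by rw [e1]; group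
  · have e1 := ht_conj_r_inv h hf him hij hmj hN a
    have e2 := ht_conj_r_inv h hf him hik hmk hN a
    rw [← e2] at e1
    change ht p v f i k N * (ht p v f i j N)⁻¹ * xr p v f m i a
      = xr p v f m i a * (ht p v f i k N * (ht p v f i j N)⁻¹)
    calc ht p v f i k N * (ht p v f i j N)⁻¹ * xr p v f m i a
        = ht p v f i k N * ((ht p v f i j N)⁻¹ * xr p v f m i a * ht p v f i j N)
          * (ht p v f i j N)⁻¹ := by group
      _ = _ := by rw [e1]; group

theorem ht_scalar_commute (h : Cov p) (hf : Frame v f) {i m j : ι} (him : i ≠ m) (hij : i ≠ j)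
    (hmj : m ≠ j) {c : F} (hc : c ≠ 0) {M : Y}
    (hM : M ∈ Lg p v f i m) : Commute (ht p v f i j c * ht p v f m j c) M := by
  refine commute_Lg (fun a => ?_) (fun a => ?_) hM
  · have e1 := ht_conj_r h hf him.symm hmj hij hc a
    have e2 := ht_conj_l h hf him hij hmj hc (a * c⁻¹)
    rw [show c * (a * c⁻¹) = a by field_simp] at e2
    refine mul_inv_eq_iff_eq_mul.1 ?_
    rw [mul_inv_rev]
    calc ht p v f i j c * ht p v f m j c * xr p v f i m a
          * ((ht p v f m j c)⁻¹ * (ht p v f i j c)⁻¹)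
        = ht p v f i j c * (ht p v f m j c * xr p v f i m a * (ht p v f m j c)⁻¹)
          * (ht p v f i j c)⁻¹ := by group
      _ = _ := by rw [e1, e2]
  · have e1 := ht_conj_l h hf him.symm hmj hij hc a
    have e2 := ht_conj_r h hf him hij hmj hc (c * a)
    rw [show c * a * c⁻¹ = a by field_simp] at e2
    refine mul_inv_eq_iff_eq_mul.1 ?_
    rw [mul_inv_rev]
    calc ht p v f i j c * ht p v f m j c * xr p v f m i a
          * ((ht p v f m j c)⁻¹ * (ht p v f i j c)⁻¹)
        = ht p v f i j c * (ht p v f m j c * xr p v f m i a * (ht p v f m j c)⁻¹)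
          * (ht p v f i j c)⁻¹ := by group
      _ = _ := by rw [e1, e2]

/-- the block element with matrix `(0, -1; 1, T)` -/
noncomputable def Mb (p : Y →* Module.End F V) (v : ι → V) (f : ι → Dual F V) (i m : ι) (T : F) : Y :=
  wt p v f i m (-1) * xr p v f i m T

theorem Mb_mem (i m : ι) (T : F) : Mb p v f i m T ∈ Lg p v f i m :=
  mul_mem (wt_mem i m _) (xr_mem_l i m _)

theorem p_Mb (h : Cov p) (hf : Frame v f) {i m : ι} (him : i ≠ m) (T : F) (y : V) :
    p (Mb p v f i m T) y = y + f i y • (v m - v i) + f m y • (T • v m - v i - v m) := by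
  unfold Mb
  rw [map_mul, Module.End.mul_apply, p_xr h hf him, p_wt h hf him (neg_ne_zero.2 one_ne_zero)]
  simp only [map_add, map_smul, hf.self, hf.ne m i him.symm, smul_eq_mul, mul_zero, add_zero,
    mul_one, inv_neg, inv_one]
  module

theorem sym_of_pow (h : Cov p) (hf : Frame v f) {i m j k : ι} (him : i ≠ m) (hij : i ≠ j)
    (hik : i ≠ k) (hmj : m ≠ j) (hmk : m ≠ k) (hjk : j ≠ k) {N c T : F} (hN : N ≠ 0) (hc : c ≠ 0)
    {n : ℕ} (hn : Even n) (hZ : (!![0, -N; 1, T] : Matrix (Fin 2) (Fin 2) F) ^ n = c • 1) :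
    ⁅ht p v f i j c, ht p v f i k N⁆ = 1 := by
  set M := Mb p v f i m T with hM
  have hMm : M ∈ Lg p v f i m := Mb_mem i m T
  set X := ht p v f i j N * M with hX
  set Z := ht p v f i k N * M with hZd
  set D := ht p v f i j c * ht p v f m j c with hD
  -- the commutator of `X` and `Z`
  have e1 : ⁅X, Z⁆ = ⁅ht p v f i j N, ht p v f i k N⁆ := by
    have h1 := (ht_quot_commute h hf him hij hik hmj hmk hN hMm).eq
    rw [commutatorElement_def, commutatorElement_def, hX, hZd]
    calc ht p v f i j N * M * (ht p v f i k N * M) * (ht p v f i j N * M)⁻¹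
          * (ht p v f i k N * M)⁻¹
        = ht p v f i j N * (M * (ht p v f i k N * (ht p v f i j N)⁻¹)) * M⁻¹
          * (ht p v f i k N)⁻¹ := by group
      _ = ht p v f i j N * ((ht p v f i k N * (ht p v f i j N)⁻¹) * M) * M⁻¹
          * (ht p v f i k N)⁻¹ := by rw [h1]
      _ = _ := by group
  have hcen : ∀ g, Commute ⁅X, Z⁆ g := by
    intro g
    rw [e1]
    exact sym_central h hf hij hik hjk hN hN g
  have e2 : ⁅X ^ n, Z⁆ = 1 := by
    rw [comm_pow hcen, e1]
    obtain ⟨k', rfl⟩ := hn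
    rw [← two_mul, pow_mul, pow_two, sym_skew h hf hij hik hjk hN hN, one_pow]
  -- images
  have hdet : N ^ n = c ^ 2 := by
    have h1 := congrArg Matrix.det hZ
    rw [Matrix.det_pow, Matrix.det_smul, Matrix.det_one, Fintype.card_fin, mul_one,
      Matrix.det_fin_two_of] at h1
    rw [← h1]
    congr 1
    ring
  have hXi : ∀ a b : F, p X (a • v i + b • v m) = (-N * b) • v i + (a + T * b) • v m := by
    intro a b
    rw [hX, map_mul, Module.End.mul_apply, hM, p_Mb h hf him, p_ht h hf hij hN]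
    simp only [map_add, map_sub, map_smul, hf.self, hf.ne i m him, hf.ne m i him.symm,
      hf.ne j i hij.symm, hf.ne j m hmj.symm, smul_eq_mul]
    module
  have hXn : ∀ (n : ℕ) (a b : F), p (X ^ n) (a • v i + b • v m)
      = (((!![0, -N; 1, T] : Matrix (Fin 2) (Fin 2) F) ^ n).mulVec ![a, b] 0) • v i
        + (((!![0, -N; 1, T] : Matrix (Fin 2) (Fin 2) F) ^ n).mulVec ![a, b] 1) • v m := by
    intro n
    induction n with
    | zero => intro a b; simp
    | succ n ih =>
      intro a b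
      have h3 : (!![0, -N; 1, T] : Matrix (Fin 2) (Fin 2) F).mulVec ![a, b]
          = ![-N * b, a + T * b] := by
        ext r
        fin_cases r <;> simp [Matrix.mulVec, dotProduct, Fin.sum_univ_two]
      rw [pow_succ, map_mul, Module.End.mul_apply, hXi, ih, pow_succ, ← Matrix.mulVec_mulVec, h3]
  have hXj : ∀ n : ℕ, p (X ^ n) (v j) = (N⁻¹) ^ n • v j := by
    intro n
    induction n with
    | zero => simp
    | succ n ih =>
      have h3 : p X (v j) = N⁻¹ • v j := by
        rw [hX, map_mul, Module.End.mul_apply, hM, p_Mb h hf him, p_ht h hf hij hN]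
        simp only [map_add, map_sub, map_smul, hf.self, hf.ne i j hij, hf.ne m j hmj,
          hf.ne j i hij.symm, hf.ne j m hmj.symm, smul_eq_mul]
        module
      rw [pow_succ, map_mul, Module.End.mul_apply, h3, map_smul, ih, smul_smul, pow_succ']
  have hX0 : ∀ (n : ℕ) (y : V), f i y = 0 → f m y = 0 → f j y = 0 → p (X ^ n) y = y := by
    intro n y h1 h2 h3
    induction n with
    | zero => simp
    | succ n ih =>
      have h4 : p X y = y := by
        rw [hX, map_mul, Module.End.mul_apply, hM, p_Mb h hf him, p_ht h hf hij hN]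
        simp only [map_add, map_sub, map_smul, hf.self, hf.ne i m him, hf.ne m i him.symm,
          hf.ne j i hij.symm, hf.ne j m hmj.symm, smul_eq_mul, h1, h2, h3]
        module
      rw [pow_succ, map_mul, Module.End.mul_apply, h4, ih]
  have e3 : p (X ^ n) = p D := by
    ext y
    have hy : y = (y - f i y • v i - f m y • v m - f j y • v j) + (f i y • v i + f m y • v m)
        + f j y • v j := by abel
    have h1 : p (X ^ n) y = (y - f i y • v i - f m y • v m - f j y • v j)
        + (c • (f i y • v i + f m y • v m)) + f j y • ((N⁻¹) ^ n • v j) := by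
      conv_lhs => rw [hy]
      rw [map_add, map_add, map_smul, hXj, hXn, hZ, hX0]
      · simp [Matrix.mulVec, dotProduct, Fin.sum_univ_two, smul_smul]
      · simp only [map_sub, map_smul, hf.self, hf.ne i m him, hf.ne i j hij, smul_eq_mul]; ring
      · simp only [map_sub, map_smul, hf.self, hf.ne m i him.symm, hf.ne m j hmj, smul_eq_mul]
        ring
      · simp only [map_sub, map_smul, hf.self, hf.ne j i hij.symm, hf.ne j m hmj.symm,
          smul_eq_mul]
        ring
    rw [h1, hD, map_mul, Module.End.mul_apply, p_ht h hf hmj hc, p_ht h hf hij hc, inv_pow, hdet]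
    simp only [map_add, map_smul, hf.self, hf.ne i m him, hf.ne i j hij, hf.ne m j hmj,
      hf.ne j m hmj.symm, hf.ne j i hij.symm, hf.ne m i him.symm, smul_eq_mul]
    match_scalars <;> field_simp <;> ring
  -- conclusion
  have e4 : ⁅X ^ n, Z⁆ = ⁅D, Z⁆ := comm_congr h.ker e3 rfl
  have e5 : ⁅D, M⁆ = 1 :=
    commutatorElement_eq_one_iff_commute.2 (ht_scalar_commute h hf him hij hmj hc hMm)
  have e6 : ⁅ht p v f m j c, ht p v f i k N⁆ = 1 :=
    commutatorElement_eq_one_iff_commute.2
      (Lg_comm h hf hmj hik hij.symm hmk him.symm hjk (ht_mem _ _ _) (ht_mem _ _ _))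
  rw [e2, hZd, comm_mul_right, e5, mul_one, mul_inv_cancel, mul_one, hD, comm_mul_left, e6,
    mul_one, mul_inv_cancel, one_mul] at e4
  exact e4.symm

end Pool.Agent.H21.SLc
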